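import Pool.Agent.Helper79.GS.Defs

/-!
# Project GS (MP_c2d095_lc): statements, part 1: the game
-/

set_option autoImplicit false

namespace Pool.Agent.Helper79.GS

open Pool.Agent.Helper19.SK

/-- BMW (about 90 lines)
(The two forms of the game agree.)
Proof.  `MW` unfolds by `rw [MW]` (well-founded recursion; first prove the unfolding lemma as an iff).  Induction on the measure
`2 * (Hᶜ).ncard + (if ps then 0 else 1)` (strong induction, for all `b` and both players at once):
Black to move: `BWin A H ps true b` iff (`ps = true` and `0 < s b`) or (`ps = false` and `BWin A H true false b`) or (some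
placement `b' ∉ H` with `BWin (insert b' H) false false b'`): one direction by cases on the inductive predicate, the other by
the constructors.  The induction hypothesis turns `BWin _ _ false _` into `¬ MW _ _ false _`: this is the unfolding of
`MW A H ps true b` (`ahead A true b` is `0 < s b`).  White to move: `BWin A H ps false b` iff the three premisses of
`white` (cases and constructor) iff `¬ MW A H ps false b` (`ahead A false b` is `¬ 0 < s b`).
Hypotheses: none. -/
def StBMW : Prop := ∀ (P : Type) [Finite P] (A : Arena P) (H : Set P) (ps : Bool) (b : P),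
  (BWin A H ps true b ↔ MW A H ps true b) ∧ (BWin A H ps false b ↔ ¬ MW A H ps false b)

/-- LOC (about 90 lines)
(The value depends only on the history in the set of boards which can still be reached.)
Proof.  Strong induction on `(Hᶜ).ncard + (H'ᶜ).ncard` and `ps` (measure `2 * (..) + (if ps then 0 else 1)`), unfolding `MW` once
on both sides.  First two clauses: the second one by induction (same `H`, `H'`, `ps` becomes `true`).  Third clause: a placement
`b → b'`; `b'` can be reached from `b`, so `b' ∈ H ↔ b' ∈ H'`; the boards which can be reached from `b'` can be reached from `b`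
(`Rch` is transitive: `Rch A b k x → Rch A x l y → Rch A b (k + l) y`, induction on the second; a single placement is `Rch` with
`k = 0` or `1` according to whether it is reversible), so `insert b' H` and `insert b' H'` agree there.
Hypotheses: none. -/
def StLOC : Prop := ∀ (P : Type) [Finite P] (A : Arena P) (H H' : Set P) (ps c : Bool) (b : P),
  (∀ k x, Rch A b k x → (x ∈ H ↔ x ∈ H')) → (MW A H ps c b ↔ MW A H' ps c b)

/-- AUG (about 150 lines)
(Sets of left vertices which can be matched form a matroid.)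
Proof (Hall).  Let `I' = fst '' M'`, `I = fst '' M`, `a = M'.card < M.card`.  Suppose that for no `y ∈ I \ I'` the set `I' ∪ {y}` can be
matched.  `N(T) = {x | ∃ y ∈ T, E' y x}`, where `E' y x` means `E y x` and `x` is in the finite set `snd '' (M ∪ M')` - or any
finite set of right vertices; use `Finset.all_card_le_biUnion_card_iff_exists_injective`-type Hall theorem for the family indexed by
`I' ∪ {y}` with the finite neighbourhoods `N(y) = {x ∈ X | E y x}`, `X = image snd (M ∪ M')`.  By Hall there is `T_y ⊆ I' ∪ {y}` with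
`|N(T_y)| < |T_y|`; `y ∈ T_y`, since `I'` is matched by `M'`; so `S_y = T_y \ {y} ⊆ I'` satisfies `|N(S_y)| ≥ |S_y|` (Hall
for `M'`), `|N(S_y)| ≤ |N(T_y)| ≤ |S_y|`, so `|N(S_y)| = |S_y|` and `N(y) ⊆ N(S_y)`.  Sets `S ⊆ I'` with `|N(S)| = |S|` are closed under unions
(`|N(S ∪ S')| ≤ |N(S)| + |N(S')| - |N(S ∩ S')| ≤ |S| + |S'| - |S ∩ S'| = |S ∪ S'|`, and `≥` by Hall).  Let `S` be the union of all
`S_y`, `y ∈ I \ I'`: `N(S ∪ (I \ I')) = N(S)` has `|S|` elements.  `M` matches `(I ∩ S) ∪ (I \ I')` into `N(S)` so `|I ∩ S| + |I \ I'| ≤ |S|`,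
`|I \ I'| ≤ |S \ I| ≤ |I' \ I|`, contradiction to `|I| > |I'|`.  (An augmenting path argument is as good.)
Hypotheses: none. -/
def StAUG : Prop := ∀ (P : Type) (E : P → P → Prop) (M M' : Finset (P × P)),
  (∀ e ∈ M, E e.1 e.2) → Set.InjOn Prod.fst (M : Set (P × P)) → Set.InjOn Prod.snd (M : Set (P × P)) →
  (∀ e ∈ M', E e.1 e.2) → Set.InjOn Prod.fst (M' : Set (P × P)) → Set.InjOn Prod.snd (M' : Set (P × P)) →
  M'.card < M.card → ∃ y, y ∉ Prod.fst '' (M' : Set (P × P)) ∧ ∃ M'' : Finset (P × P), (∀ e ∈ M'', E e.1 e.2) ∧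
    Set.InjOn Prod.fst (M'' : Set (P × P)) ∧ Set.InjOn Prod.snd (M'' : Set (P × P)) ∧
    Prod.fst '' (M'' : Set (P × P)) = insert y (Prod.fst '' (M' : Set (P × P)))

/-- COL (about 120 lines)
(Deleting an essential vertex does not change which other vertices are essential.)
Proof.  On a finite type let `ν E` be the largest `m` with `Mat E m` (`Mat E 0`; `Mat E m` implies `m ≤ card P`; `Mat E m` and `m' ≤ m` imply
`Mat E m'`: subset of the matching).  `ν (del E u) ≤ ν E ≤ ν (del E u) + 1` (remove the edge at `u`), and `Ess E u` iff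
`ν (del E u) < ν E`.  Let `Ess E v`, `ν = ν E`, so `ν (del E v) = ν - 1`; `del (del E v) r = del (del E r) v`.
(←: `Ess E r → Ess (del E v) r`.)  Suppose not: there is a matching `M'` of `del (del E v) r` with `ν - 1` edges; let `M` be a matching of `E` with
`ν` edges; hAUG gives a matching `M''` of `E` with `fst '' M'' = insert y (fst '' M')`, so with `ν` edges, and it misses `v` (if `y ≠ v`)
or `r` (if `y = v ≠ r`): so `Mat (del E v) ν` or `Mat (del E r) ν`, contradiction.
(→) Suppose `Ess (del E v) r` and not `Ess E r`: `ν (del (del E v) r) = ν - 2`, but `ν (del E r) = ν`, so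
`ν (del (del E r) v) ≥ ν - 1`, contradiction.
Hypotheses: hAUG. -/
def StCOL : Prop := ∀ (P : Type) [Finite P] (E : P → P → Prop) (v r : P), v ≠ r → Ess E v →
  (Ess (del E v) r ↔ Ess E r)

/-- GEO (about 130 lines)
(One round of the geography game.)
Proof.  `ν` as in COL.  (1) Let `Ess E u`, `M` a matching of `E` with `ν E` edges.  It covers `u` (otherwise it is a matching of `del E u`, so
`Mat (del E u) (ν E)`; but `Ess E u` gives `ν (del E u) < ν E`); let `(u, v) ∈ M`.  So `E u v`.  Let `E w v`, `w ≠ u`; claim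
`Ess (del2 E u v) w`.  `M \ {(u, v)}` is a matching of `del2 E u v` with `ν E - 1` edges.  Suppose
`Mat (del (del2 E u v) w) (ν E - 1)`: adding the edge `(w, v)` gives a matching of `del E u` with `ν E` edges, contradiction.  So
`m = ν E - 1` is a witness for `Ess (del2 E u v) w`.
(2) Let `¬ Ess E u`: there is a matching `M` of `del E u` with `ν E` edges (take `m = ν E` in the definition).  Let `E u v`.  `M` covers `v`,
otherwise `M ∪ {(u, v)}` has `ν E + 1` edges; let `(w, v) ∈ M`, `w ≠ u`, `E w v`.  `M \ {(w, v)}` is a matching of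
`del (del2 E u v) w` with `ν E - 1` edges, and `del2 E u v` has no matching with `ν E` edges (adding `(u, v)` would give `ν E + 1`).  So for every
`m` with `Mat (del2 E u v) m`, `m ≤ ν E - 1` and `Mat (del (del2 E u v) w) m`: `¬ Ess (del2 E u v) w`.
Hypotheses: none. -/
def StGEO : Prop := ∀ (P : Type) [Finite P] (E : P → P → Prop) (u : P),
  (Ess E u → ∃ v, E u v ∧ ∀ w, w ≠ u → E w v → Ess (del2 E u v) w) ∧
  (¬ Ess E u → ∀ v, E u v → ∃ w, w ≠ u ∧ E w v ∧ ¬ Ess (del2 E u v) w)

/-- LVL (about 60 lines)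
(Levels.)  Let `¬ ahead A c u` and `rv A c u v`.
Proof.  `Sc A` gives `s v = s u + 4` for `c = true`; for `c = false`: `rv A false u v` is `rv A true v u` (unfold; `!(!c) = c`), so
`s u = s v + 4`.  `mg A c u = (-s u).toNat` with `s u ≤ 0`, or `(s u - 1).toNat` with `0 < s u`; so `mg A c v = mg A c u - 4` if
`4 ≤ mg A c u`, which is the case iff `v` is not ahead for `c`; the quotient by 4 decreases by 1.  `omega` after unfolding.
The last clause: two predecessors of the same board have the same score.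
Hypotheses: none. -/
def StLVL : Prop := ∀ (P : Type) (A : Arena P), Sc A → ∀ (c : Bool) (u v : P), rv A c u v →
  (¬ ahead A c u → ¬ ahead A c v → mg A c v / 4 + 1 = mg A c u / 4) ∧
  (¬ ahead A c v → ¬ ahead A c u) ∧ (∀ c' : Bool, ahead A (!c') u ↔ ¬ ahead A c' u) ∧ u ≠ v ∧ A.s u ≠ A.s v ∧
  (∀ w, rv A c w v → A.s w = A.s u) ∧ (∀ w, ¬ ahead A c u → A.s w = A.s u → ¬ ahead A c w ∧ mg A c w = mg A c u) ∧
  ((c = true ∧ A.s v = A.s u + 4) ∨ (c = false ∧ A.s v = A.s u - 4))

/-- XLC (about 130 lines)
(`XIN` depends only on the history in the levels between the board and the threshold, and not on the board itself.)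
Let `σ x` be `-s x` for `c = true` and `s x` for `c = false`.
Proof.  Show by induction on `k`: if `mg A c u / 4 + 1 = k`, `¬ ahead A c u`, then `Xk A EX V c k u ↔ Xk A EX V' c k u`.  `k = 0` impossible.
`k + 1`: the two graphs `Gr .. V .. u` and `Gr .. V' .. u` are equal (`funext`, `propext`): let `s y = s u`, `rv A c y x`.  `y ≠ u`:
`σ y = σ u`, so `y ∈ V ↔ y ∈ V'`.  `σ x = σ u - 4` (hLVL), so `x ≠ u` and `x ∈ V ↔ x ∈ V'`.  If `¬ ahead A c x` then `mg A c x / 4 + 1 = k`
(hLVL), and `V, V'` agree on `{z | σ z ≤ σ x}`, so the induction hypothesis gives `Xk .. V .. k x ↔ Xk .. V' .. k x`.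
Hypotheses: hLVL. -/
def StXLC : Prop := ∀ (P : Type) (A : Arena P), Sc A → ∀ (EX : Bool → P → Prop) (V V' : Set P) (c : Bool) (u : P),
  ¬ ahead A c u → (∀ x, x ≠ u → (if c = true then -A.s x ≤ -A.s u else A.s x ≤ A.s u) → (x ∈ V ↔ x ∈ V')) →
  (XIN A EX V c u ↔ XIN A EX V' c u)

/-- STB (about 130 lines)
(Stability.)
Proof.  `¬ ahead A c r` too (same score).  If `EX c r`: both sides hold (`XIN` unfolds to `EX c r ∨ ..`).  Let `¬ EX c r`.  Put
`E = Gr A EX V c (Xk A EX V c k) r` with `k = mg A c r / 4` (`= mg A c v / 4`), `E' = Gr A EX (insert v V) c (Xk A EX (insert v V) c k) r`.  For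
`s y = s r`, `rv A c y x`: `x ≠ v` (other score); if `¬ ahead A c x` then `mg A c x / 4 + 1 = k`, `Xk A EX V c k x` is `XIN A EX V c x`, the same
for `insert v V`, and the two are equivalent by hXLC (`v` has the score of `y`, so it is not in the levels of `x`).
Case `EX c v`: `E' = E`, since `y = v` is excluded in both (`v ≠ r`, `EX c v`).
Case `¬ EX c v`: as `v ∉ V`, `r ∉ V`, `¬ EX c v`, `¬ EX c r`, the graph `Gr A EX V c (Xk A EX V c k) v` is `E` too (both say: `y ∉ V ∧ ¬ EX c y ∧ ..`), and
`E' = del E v`.  The hypothesis is `Ess E v`, the claim `Ess (del E v) r ↔ Ess E r` is hCOL.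
Hypotheses: hLVL hXLC hCOL. -/
def StSTB : Prop := ∀ (P : Type) [Finite P] (A : Arena P), Sc A → ∀ (EX : Bool → P → Prop) (V : Set P) (c : Bool)
  (v r : P), ¬ ahead A c v → XIN A EX V c v → v ∉ V → r ∉ V → r ≠ v → A.s r = A.s v →
  (XIN A EX (insert v V) c r ↔ XIN A EX V c r)

/-- GRD (about 150 lines)
(The graph after one round.)
Proof.  `Gr` on the left: history `V' = insert w (insert v H)`.  Let `s y = s w` (`= s u`) and `rv A c y x`, so `s y ≠ s v`
(hLVL: `rv A c u v`), `y ≠ v`, `x ≠ w` (other score).  Left vertices: `y = w ∨ (y ∉ V' ∧ ¬ EX c y)` iff `y ∉ H ∧ ¬ EX c y` (`w ∉ H`, `¬ EX c w`,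
`y ≠ v`) iff `y ≠ u ∧ (y = u ∨ (y ∉ H ∧ ¬ EX c y))` (`u ∈ H`).  Right vertices: `x ∉ V'` iff `x ≠ v ∧ x ∉ H` (`x ≠ w`).  For `x ∉ H`, `x ≠ v`,
`¬ ahead A c x`: `mg A c x / 4 + 1 = k` where `k = mg A c u / 4` (hLVL for `rv A c y x`, `y` has the margin of `u`), so both `Xk .. k x` are `XIN .. x`;
`XIN A EX V' c x ↔ XIN A EX (insert v H) c x` (hXLC: `w` has the score of `y`) `↔ XIN A EX H c x`: `s x = s v` (both are `s u ± 4`), so
`¬ ahead A c v`, by hypothesis `XIN A EX H c v`, and hSTB applies (`v ∉ H`).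
Hypotheses: hLVL hXLC hSTB. -/
def StGRD : Prop := ∀ (P : Type) [Finite P] (A : Arena P), Sc A → ∀ (EX : Bool → P → Prop) (H : Set P) (c : Bool)
  (u v w : P), ¬ ahead A c u → u ∈ H → rv A c u v → v ∉ H → (¬ ahead A c v → XIN A EX H c v) → w ∉ H → ¬ EX c w →
  rv A c w v → ∀ k, k = mg A c u / 4 →
  Gr A EX (insert w (insert v H)) c (Xk A EX (insert w (insert v H)) c k) w =
    del2 (Gr A EX H c (Xk A EX H c k) u) u v

/-- BEH (about 250 lines, important)
(The player who is behind and to move wins iff `XIN`.)  `Cm`: a set of boards closed under reversible placements (the component);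
`H₁`: the history when the component is entered; hypothesis `hEX`: `EX c u` says that the player `c`, to move in the board `u` of the
component, has a winning placement which is not reversible.
Proof.  Induction on the measure (`mg A c u / 4`, `(Hᶜ).ncard`) (lexicographic), for all `u`, `H`, `ps` (`c` fixed).  Let `k = mg A c u / 4`,
`E = Gr A EX H c (Xk A EX H c k) u`, so `XIN A EX H c u` is `EX c u ∨ Ess E u`.  For `x` with `rv A c y x`, `s y = s u`, `¬ ahead A c x`:
`Xk A EX H c k x` is `XIN A EX H c x` (hLVL).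
(←) If `EX c u`: hEX gives the winning placement (third clause of `MW`).  Otherwise `Ess E u`; hGEO gives `v` with `E u v` and
`∀ w ≠ u, E w v → Ess (del2 E u v) w`.  `E u v` says `rv A c u v`, `v ∉ H`, `¬ EX (!c) v`, `¬ ahead A c v → XIN A EX H c v`.  Claim
`¬ MW A (insert v H) false (!c) v` (so the placement `u → v` wins).  Unfold: (pass) `MW A (insert v H) true c v` holds: if `ahead A c v` by the
first clause, otherwise by induction (smaller margin) from `XIN A EX (insert v H) c v`, which is `XIN A EX H c v` by hXLC.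
(placement `v → b'` of `!c`, `b' ∉ insert v H`) not reversible: if `¬ MW .. b'` then `EX (!c) v` by hEX, contradiction.
Reversible: `w = b'`, `rv A c w v`, `w ∈ Cm`, `s w = s u` (hLVL), `¬ ahead A c w`; claim `MW A (insert w (insert v H)) false c w`: by induction
(same margin, smaller complement) this is `XIN A EX (insert w (insert v H)) c w`: if `EX c w` clear; otherwise `E w v` holds, `w ≠ u` (`u ∈ H`), so
`Ess (del2 E u v) w`, and this is the graph of `XIN` by hGRD.
(→) Let `¬ EX c u`, `¬ Ess E u`.  Claim `¬ MW A H ps c u`.  First clause: `u` is not ahead.  Pass: `MW A H true (!c) u` holds by its first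
clause (`ahead A (!c) u`).  Placement `u → b'`, `b' ∉ H`, not reversible: it would give `EX c u` by hEX.  Reversible, `v = b'`: claim
`MW A (insert v H) false (!c) v`.  If `EX (!c) v`: by hEX (the history `insert v H` agrees with `H₁` outside `Cm`, as `v ∈ Cm`).  If
`¬ ahead A c v` and `¬ XIN A EX H c v`: by passing: `¬ MW A (insert v H) true c v` by induction and hXLC.  Otherwise `E u v`; hGEO
gives `w ≠ u`, `E w v`, `¬ Ess (del2 E u v) w`; so `w ∉ H`, `¬ EX c w`, `rv A c w v`; `!c` places `v → w` (`w ≠ v`), and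
`¬ MW A (insert w (insert v H)) false c w` by induction: `XIN` there is `EX c w ∨ Ess (del2 E u v) w` by hGRD, false.
Hypotheses: hLVL hXLC hGEO hGRD. -/
def StBEH : Prop := ∀ (P : Type) [Finite P] (A : Arena P), Sc A → ∀ (EX : Bool → P → Prop) (Cm H₁ : Set P),
  (∀ (c : Bool) (u v : P), u ∈ Cm → rv A c u v → v ∈ Cm) →
  (∀ (c : Bool) (u : P), u ∈ Cm → ∀ H : Set P, (∀ x, x ∉ Cm → (x ∈ H ↔ x ∈ H₁)) →
    ((∃ b', A.mv c u b' ∧ ¬ A.mv (!c) b' u ∧ b' ∉ H ∧ ¬ MW A (insert b' H) false (!c) b') ↔ EX c u)) →
  ∀ (c : Bool) (u : P) (H : Set P) (ps : Bool), u ∈ Cm → u ∈ H → (∀ x, x ∉ Cm → (x ∈ H ↔ x ∈ H₁)) → ¬ ahead A c u →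
  (MW A H ps c u ↔ XIN A EX H c u)

/-- AHD (about 100 lines)
(The player who is ahead.)  Same hypotheses as BEH.
Proof.  Unfold `MW A H false c u`: first clause is false (`ps = false`); second clause: `¬ MW A H true (!c) u`, by hBEH for the player `!c`
(`¬ ahead A (!c) u` by hLVL third clause / unfolding of `ahead`) this is `¬ XIN A EX H (!c) u`.  Third clause: a placement which is not
reversible: hEX; a reversible placement to `w ∉ H`: `¬ MW A (insert w H) false (!c) w`; `w` is not ahead for `!c` (it is one level further: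
`s w = s u ± 4` in the direction of `c`), `w ∈ Cm`, so by hBEH this is `¬ XIN A EX (insert w H) (!c) w`.
Hypotheses: hBEH. -/
def StAHD : Prop := ∀ (P : Type) [Finite P] (A : Arena P), Sc A → ∀ (EX : Bool → P → Prop) (Cm H₁ : Set P),
  (∀ (c : Bool) (u v : P), u ∈ Cm → rv A c u v → v ∈ Cm) →
  (∀ (c : Bool) (u : P), u ∈ Cm → ∀ H : Set P, (∀ x, x ∉ Cm → (x ∈ H ↔ x ∈ H₁)) →
    ((∃ b', A.mv c u b' ∧ ¬ A.mv (!c) b' u ∧ b' ∉ H ∧ ¬ MW A (insert b' H) false (!c) b') ↔ EX c u)) →
  ∀ (c : Bool) (u : P) (H : Set P), u ∈ Cm → u ∈ H → (∀ x, x ∉ Cm → (x ∈ H ↔ x ∈ H₁)) → ahead A c u →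
  (MW A H false c u ↔ (EX c u ∨ ¬ XIN A EX H (!c) u ∨ ∃ w, rv A c u w ∧ w ∉ H ∧ ¬ XIN A EX (insert w H) (!c) w))

/-- WNM (about 200 lines)
(The value.)
Proof.  Induction on `r`, for all `b`, `c`.  Let `Cm` be the set of the `x` which can be reached from `b` by reversible placements (`Rch A b 0 x`),
`H₁ = insert b H₀`, `EX = EN A H₀ r`.  `Cm` is closed under reversible placements (both players).  If `x ∈ Cm` then `b` is reached from
`x` by reversible placements (induction; a reversible placement can be taken back).  hEX of hBEH: let `u ∈ Cm`, `H` agree with `H₁` outside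
`Cm`, `u → b'` a placement of `c` which is not reversible.  (i) `r ≥ 1` (`Rch A b 1 b'`, `Bd A r b`).  (ii) If `x` is reached from
`b'` (`Rch A b' l x`) then `x ∉ Cm`: otherwise there is a closed sequence from `b` with at least one placement which is not reversible;
repeated `r + 1` times it contradicts `Bd A r b` (`Rch A b (j * (1 + l)) b` by induction on `j`).  In particular `b' ∉ Cm`, `b' ≠ b`, so
`b' ∈ H ↔ b' ∈ H₀`.  (iii) `Bd A (r - 1) b'` (`Rch A b' l x` gives `Rch A b (1 + l) x`).  (iv) `insert b' H` and `insert b' H₀` agree on the boards which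
can be reached from `b'` (by (ii) they are not in `Cm`, so `x ∈ H ↔ x ∈ insert b H₀ ↔ x ∈ H₀` as `b ∈ Cm`).  So
`MW A (insert b' H) false (!c) b' ↔ MW A (insert b' H₀) false (!c) b'` (hLOC) `↔ WN A H₀ (r - 1) (!c) b'` (induction).  For `r = 0` there is no such placement
and `EN A H₀ 0` is false; for `r + 1`, `EN A H₀ (r + 1) c u` is exactly the statement.  So hEX holds and hBEH, hAHD with `u = b`, `H = insert b H₀` give
`MW A (insert b H₀) false c b ↔ Wst A H₀ EX c b`, and `WN A H₀ r = Wst A H₀ (EN A H₀ r)` (cases on `r`, `rfl`).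
Hypotheses: hLOC hBEH hAHD. -/
def StWNM : Prop := ∀ (P : Type) [Finite P] (A : Arena P), Sc A → ∀ (H₀ : Set P) (r : ℕ) (b : P) (c : Bool), Bd A r b →
  (MW A (insert b H₀) false c b ↔ WN A H₀ r c b)

/-- TRN (about 200 lines)
(Transport along an injection.)
Proof.  (1) `Mat E m ↔ Mat E' m` if `E a b ↔ E' (f a) (f b)` and `E'` is supported on the range of `f` (map a matching by `f × f`; for the
converse every pair of a matching of `E'` is `(f a, f b)` for unique `a, b`; use `Finset.preimage`, `f × f` injective on all pairs).  `del E u` and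
`del E' (f u)` are related in the same way, so `Ess E u ↔ Ess E' (f u)`.  (2) `ahead`, `mg`, `rv` are the same at `u` and `f u`.  (3) If
`EX c u ↔ EX' c (f u)`, `x ∈ V ↔ f x ∈ V'`, then for all `k`: `Xk A EX V c k u ↔ Xk A' EX' V' c k (f u)` (induction on `k`; the
graph `Gr` of `A'` is supported on the range of `f` because `rv A'` is).  So the same for `XIN`.  (4) `Wst`: `insert b H₀` and `insert (f b) H₀'` correspond
(`f` injective); the witness `w'` with `rv A' c (f b) w'` is in the range.  (5) `ext`: the same.  (6) Induction on `r`.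
Hypotheses: none. -/
def StTRN : Prop := ∀ (P P' : Type) (A : Arena P) (A' : Arena P') (f : P → P'), Function.Injective f →
  (∀ c a b, A.mv c a b ↔ A'.mv c (f a) (f b)) → (∀ c a' b', A'.mv c a' b' → (∃ a, f a = a') ∧ ∃ b, f b = b') →
  (∀ a, A.s a = A'.s (f a)) → ∀ (H₀ : Set P) (H₀' : Set P'), (∀ a, a ∈ H₀ ↔ f a ∈ H₀') →
  ∀ (r : ℕ) (c : Bool) (b : P), WN A H₀ r c b ↔ WN A' H₀' r c (f b)

/-- MON (about 40 lines)
(Budgets.)  Proof.  `Bd A r b` and `r ≤ r'` imply `Bd A r' b`.  Hypotheses: none. -/
def StMON : Prop := ∀ (P : Type) (A : Arena P) (r r' : ℕ) (b : P), r ≤ r' → Bd A r b → Bd A r' b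

end Pool.Agent.Helper79.GS
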