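import Pool.Agent.Helper79.GS.Defs
import Pool.Agent.Helper19.SK.Ko

/-!
# Project GS (MP_c2d095_lc): statements, part 2: Go.  Use the lemmas of `Pool/Agent/Helper19/SK/Basic.lean` and `Ko.lean`.
-/

set_option autoImplicit false

namespace Pool.Agent.Helper79.GS

open Pool.Agent.Helper19.SK

/-- KRV (about 120 lines)
(Reversible placements are ko captures.)
Proof.  `Q = play G P c e`, `P e = none`, `Q ≠ P`, and `P = play G Q (!c) u`, `Q u = none`.  `P` and `Q` are alive (`alive_play`).  Count stones:
`own_le`, `opp_le` for the two placements: `#c(Q) ≤ #c(P) + 1`, `#c(P) ≤ #c(Q)`, `#!c(Q) ≤ #!c(P) ≤ #!c(Q) + 1` (`!(!c) = c`).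
Claim `#c(Q) = #c(P) + 1`: otherwise `#c(P) = #c(Q)`, and the `c`-stones of `P` are `c`-stones of `Q` (`opp_of` for the second placement), so
`stones P c = stones Q c`; so `Q e ≠ some c`; then no stone of the other colour is captured (`own_stay` with `x = e`), so
`P v = some (!c) ↔ Q v = some (!c)` (`opp_of`), and `Q = P`, contradiction.  In the same way (exchange the roles) `#!c(P) = #!c(Q) + 1`.
`opp_eq` for the first placement: exactly one stone `u'` of `!c` is captured.  `own_eq` for the second placement: `P u = some (!c)`; since
`Q u = none`, `u' = u`.  `opp_eq` for the second placement: the only `c`-stone captured by it is `e` (`Q e = some c` by `own_eq` for the first,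
`P e = none`).  Eye: let `w` be a neighbour of `e`; `capt_nbr` for the second placement (position `Q`, colour `!c`, point `u`, captured stone `e`):
`w = u`, or `Q w = some (!c)` (then `P w = some (!c)` by `opp_of`), or `Q w = some c` and `P w = none`: then `w = e` by uniqueness, impossible.  So all
neighbours of `e` are `some (!c)` in `P`; apply `ko_of`.
Hypotheses: none. -/
def StKRV : Prop := ∀ (V : Type) [Finite V] (G : SimpleGraph V) (c : Bool) (P Q : Pos V), rv (goArena G) c P Q →
  ∃ e, KoCapture G P c e ∧ Q = play G P c e

/-- KSC (about 170 lines)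
(A ko capture of Black changes the score by 4.)
Proof.  Let `c = true`, `e`, `u` as in `KoCapture`, `Q = play G P c e = put (put P e (some c)) u none`.  All neighbours of `e` are `some (!c)` in `P`
(`u` is one of them); all neighbours of `u` are `some c` in `Q`.  The contents change only in `e` (`none` to `some c`) and `u`
(`some (!c)` to `none`).  Chains of an empty point `v ≠ e` in `P`: no point of the chain is adjacent to `e` (the neighbours of `e` are stones), so `e` is not
in it; no point of the chain is adjacent to `u`: a neighbour of `u` is `some c` in `Q`, so it is `e` or `some c` in `P`.  So the chain of `v` is the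
same set in `P` and `Q` (`Relation.ReflTransGen` induction in both directions) and the adjacent points have the same contents in `P` and `Q`: for
`v ≠ e`, `v ≠ u`: `Encl G P d v ↔ Encl G Q d v` for both colours `d`.  `e` in `P`: chain `{e}` (neighbours are stones), so
`Encl G P (!c) e`, `¬ Encl G P c e`.  `u` in `Q`: chain `{u}`, `Encl G Q c u`, `¬ Encl G Q (!c) u`.  So with
`S d P = {v | P v = some d ∨ Encl G P d v}`: `S c Q` is `S c P` plus the two new points `e`, `u` (`u ∉ S c P`, `e ∉ S c P`), and `S (!c) P` is
`S (!c) Q` plus the two points `e`, `u`.  `Set.ncard_insert_of_notMem` twice.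
Hypotheses: none. -/
def StKSC : Prop := ∀ (V : Type) [Finite V] (G : SimpleGraph V) (P : Pos V) (e : V), KoCapture G P true e →
  area G (play G P true e) true = area G P true + 2 ∧ area G P false = area G (play G P true e) false + 2

/-- GSC (about 30 lines)
(Scores of reversible placements.)
Proof.  hKRV gives `e`; hKSC; unfold `goArena` and `Sc`; `push_cast`, `omega`.
Hypotheses: hKRV hKSC. -/
def StGSC : Prop := ∀ (V : Type) [Finite V] (G : SimpleGraph V), Sc (goArena G)

/-- ONE (about 200 lines)
(Positions from which no play removes two stones at a time.)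
Proof.  `N = Nat.card V`, `em Q` the number of empty points, `μ Q = (eyes G Q true).ncard + (eyes G Q false).ncard ≤ 2 N`,
`φ Q = em Q * (2 N + 1) + (2 N - μ Q)`, so `φ Q ≤ N (2 N + 1) + 2 N`.  Let `Q` be alive with the one stone property (for every placement the
removed set has at most one element), `Q' = play G Q c e ≠ Q`, `Q e = none`.
(a) Nothing is removed: `em Q' = em Q - 1`, so `φ Q' + 1 ≤ φ Q`.
(b) Exactly one stone `v` is removed.  If `v` has the colour `c`: no stone of the other colour is captured, if `v ≠ e` the chain of `v` in
`put Q e (some c)` has no liberty, `Q` is alive so this chain contains a neighbour of `e` and so `e` itself (own stones are all there), which is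
removed too: contradiction (or: by `own_stay`/`clear` lemmas); if `v = e` then `Q' = Q`, contradiction.  So `v = u` is a stone of the other colour,
`em Q' = em Q`, all other stones stay.  `eye_up`: `(eyes G Q' c).ncard ≥ (eyes G Q c).ncard + 1`.  `eye_down`:
`(eyes G Q (!c)).ncard ≤ (eyes G Q' (!c)).ncard + 1`.  So `μ Q' ≥ μ Q` and `φ Q' ≤ φ Q`.  If the placement is not reversible then `e` is not in
`eyes G Q (!c)` (otherwise `ko_of` gives a `KoCapture`, whose last clause says that the placement can be taken back: `A.mv (!c) Q' Q` with the point
`u`, `Q' u = none`, `Q ≠ Q'`), so by `eye_eq` (contrapositive) `(eyes G Q (!c)).ncard ≤ (eyes G Q' (!c)).ncard` and `φ Q' + 1 ≤ φ Q`.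
So along `Rch` from an alive position `P`: `φ x + k ≤ φ P` (induction; reachable positions have the one stone property since `Rch` is
transitive, and they are alive by `alive_play`), `k ≤ φ P ≤ 2 N² + 3 N`.  If `P` is not alive: the first placement leads to an alive position and is
not reversible (a reversible one gives `P = play ..`, alive): `k ≤ 1 + φ Q`.  `2 N² + 3 N + 1 ≤ 2 (N + 1)²`.
(Decompose `Rch G P k x` at its first step: prove `Rch A b k x → x = b ∧ k = 0 ∨ ∃ c y, A.mv c b y ∧ ((A.mv (!c) y b ∧ Rch A y k x) ∨
(¬ A.mv (!c) y b ∧ ∃ k', k = k' + 1 ∧ Rch A y k' x))` by induction.)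
Hypotheses: none. -/
def StONE : Prop := ∀ (V : Type) [Finite V] (G : SimpleGraph V) (P : Pos V), OneStone G P →
  Bd (goArena G) (2 * (Nat.card V + 1) ^ 2) P

end Pool.Agent.Helper79.GS
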