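import Pool.Agent.Helper79.GS.St5
import Pool.Agent.Helper79.GS.St1
import Pool.Agent.Helper79.GS.St2

/-!
# Project GS (MP_c2d095_lc): statements, part 6: boards as numbers, instances as words, the theorem
-/

set_option autoImplicit false

namespace Pool.Agent.Helper79.GS

open Pool.Agent.Helper19.SK Pool.Agent.Helper73.DC Finset

/-- The digit of the content of a point. -/
def dgt (x : Option Bool) : ℕ :=
  match x with
  | none => 0
  | some true => 1
  | some false => 2

/-- COD (about 120 lines)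
(Boards and numbers.)
Proof.  `codeB P = Σ_i dgt (P (cell i)) * 3^i` with `cell = finProdFinEquiv.symm` (the match in `codeB` is `dgt`, `rfl` after cases).  For digits `x i < 3`, `i < K`: the number
`Σ_(i<K) x i 3^i` is `< 3^K` and its digit number `i` is `x i` (induction on `K`, or `Nat.ofDigits`).  Injective: `dgt` is injective.  Onto: for `u < 3^(n²)` let `P (cell i)` be the
content with the digit `dg 3 u i < 3`; two numbers `< 3^K` with the same first `K` digits are equal.
Hypotheses: none. -/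
def StCOD : Prop := ∀ n : ℕ,
  (∀ P : Pos (Fin n × Fin n), codeB P < 3 ^ (n * n) ∧
    ∀ i : Fin (n * n), dg 3 (codeB P) i.val = dgt (P (finProdFinEquiv.symm i))) ∧
  (∀ P Q : Pos (Fin n × Fin n), codeB P = codeB Q → P = Q) ∧
  (∀ u < 3 ^ (n * n), ∃ P : Pos (Fin n × Fin n), codeB P = u) ∧
  (∀ (u : ℕ) (P : Pos (Fin n × Fin n)), u < 3 ^ (n * n) →
    (∀ i : Fin (n * n), dg 3 u i.val = dgt (P (finProdFinEquiv.symm i))) → u = codeB P)

/-- TCH (about 150 lines)
(Chains.)  `cell i = finProdFinEquiv.symm i = (i / n, i % n)`; `adjN n p q` is adjacency of the cells in `grid n`; `dg 3 (codeB P)` is the content (hCOD), `dgt` is injective.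
Proof.  `pw N 2 (n²) = 2^(n²)` (as `2^(n²) ≤ 3^(n²) ≤ N`).  (←) Let `Chain P (cell i) w`, `Adj w u`, `dgt (P u) = x` and `S` be closed with `dg 2 S i = 1`: by induction along the chain `dg 2 S w' = 1` for all `w'` of the
chain; take `p = w`, `q = u`.  (→) Let `S` be the number with the binary digits `1` exactly at the numbers of the points of the chain of `cell i` (`S = Σ_(p < n²) if Chain P (cell i) (cell p) then 2^p else 0 < 2^(n²)`; digits as in COD). It is closed
and contains `i`; the conclusion is the claim.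
Hypotheses: hCOD. -/
def StTCH : Prop := ∀ (N n : ℕ), 3 ^ (n * n) ≤ N → (∀ p q : Fin (n * n), adjN n p.val q.val ↔
    (grid n).Adj (finProdFinEquiv.symm p) (finProdFinEquiv.symm q)) ∧
  ∀ (P : Pos (Fin n × Fin n)) (i : Fin (n * n)) (x : ℕ), tchN N n (codeB P) i.val x ↔
    ∃ w u, Chain (grid n) P (finProdFinEquiv.symm i) w ∧ (grid n).Adj w u ∧ dgt (P u) = x

/-- PLY (about 170 lines)
(Placements.)  `1 - bn c = bn (!c)`, `colN (bn c) = dgt (some c)`.
Proof.  (1) `clrN N n (bn c) (codeB P) (codeB Q) ↔ Q = clear (grid n) c P`: compare the contents at every cell (hCOD); `tchN .. 0` is `Lib` (hTCH with `x = 0 = dgt none`).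
(2) `playN N n (bn c) (codeB P) e (codeB Q) ↔ Q = play (grid n) P c (cell e)`: `u1 < pw N 3 (n²) = 3^(n²)` is `codeB` of a board (hCOD), which has to be `put P (cell e) (some c)`; `u2` is the code of
`clear (!c)` of it.  (3) `mvN`.
Hypotheses: hCOD hTCH. -/
def StPLY : Prop := ∀ (N n : ℕ), 3 ^ (n * n) ≤ N → ∀ (c : Bool) (P Q : Pos (Fin n × Fin n)),
  mvN N n (bn c) (codeB P) (codeB Q) ↔ ∃ e, P e = none ∧ Q = play (grid n) P c e ∧ Q ≠ P

/-- ARE (about 100 lines)
(Areas.)
Proof.  The sum in `areaN` counts the `v < n²` with a property; by hCOD and hTCH (contents `x = colN (bn c) = dgt (some c)` and `x = colN (1 - bn c) = dgt (some (!c))`) it is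
`P (cell v) = some c ∨ Encl (grid n) P c (cell v)` (the last clause of `Encl`: `∀ w u, .. → P u ≠ some (!c)` is the negation of touching `!c`).  `Set.ncard` of `{v | ..}` over `Fin n × Fin n` is the number of such
`v` (transport by the equivalence `finProdFinEquiv`; `Finset.sum_boole`, `Finset.card`).
Hypotheses: hCOD hTCH. -/
def StARE : Prop := ∀ (N n : ℕ), 3 ^ (n * n) ≤ N → ∀ (c : Bool) (P : Pos (Fin n × Fin n)),
  areaN N n (bn c) (codeB P) = area (grid n) P c

/-- ENC (about 200 lines)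
(Reading the word of an instance.)  `1 ≤ n`, `h = H.length`, `w = enc n m c P H`, `ℓ = |w| = 1 + n + 1 + (h + 1) n² + 1 + m`.
Proof.  Letters of `w`: number 0: `ltr (some c)`; `1 .. n`: 3; `n + 1`: 4; `n + 2 + j n² + p` (`j ≤ h`, `p < n²`): the content of the cell `p` of the board number `j` (`P` for `j = 0`, the `j`-th board of `H` for `j ≥ 1`), one of `0, 1, 2`;
`n + 2 + (h+1) n²`: 4; then 3.  (`List.getElem?_append`, `List.getElem?_replicate`, `List.getElem_ofFn`; for the flatten of lists of the same length `K ≥ 1`: entry `j K + p` is entry `p` of the `j`-th list, by induction.)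
`lett w i = cd a + 1` iff the letter number `i` is `a` (`cd` is injective: `Fintype.equivFin`).  `tL7` (specification of `bmin`): `pos1 w = n + 1`, `nW w = n`, `pos2 w = n + 2 + (h+1) n²`, `mW w = m`.  `plW`: letter 0 is `1` iff `c = true`.
`cntW w j p` = `dgt` of the content, for `j ≤ h`, `p < n²`.  `b0W N w = Σ_p cntW w 0 p * 3^p = codeB P` (`pw N 3 p = 3^p` for `p ≤ n²`; `Finset.sum_range`).  `H0W w (codeB Q)`: some `j`, `1 ≤ j`, `n + 2 + (j+1) n² ≤ n + 2 + (h+1) n²`, i.e. `j ≤ h` (as `n² ≥ 1`; and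
`j < ℓ` automatically), such that all digits of `codeB Q` are the contents of the `j`-th board of `H`, that is `Q` is this board (hCOD).
Hypotheses: hCOD. -/
def StENC : Prop := ∀ (n m : ℕ) (c : Bool) (P : Pos (Fin n × Fin n)) (H : List (Pos (Fin n × Fin n))), 1 ≤ n →
  nW (enc n m c P H) = n ∧ mW (enc n m c P H) = m ∧ plW (enc n m c P H) = bn c ∧
  (∀ N, 3 ^ (n * n) ≤ N → b0W N (enc n m c P H) = codeB P) ∧
  ∀ Q : Pos (Fin n × Fin n), H0W (enc n m c P H) (codeB Q) ↔ Q ∈ H

/-- FIN (about 120 lines)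
(The language decides the game.)
Proof.  `w = enc n m c P H`, `N = NN 16 w ≥ 3^(n²)` (hBND: `3^(n²) + 2 < PhN ≤ N`, `nW w = n` by hENC).  hTRN with `f = codeB : Pos (Fin n × Fin n) → ℕ`, `A = goArena (grid n)`, `A' = arN N n`: injective (hCOD), placements (hPLY), numbers occurring in
`mvN` are `< 3^(n²)`, so in the range (hCOD), scores (hARE), `H₀ = {Q | Q ∈ H}` and `{u | H0W w u}` (hENC).  So `WN (arN N n) .. r c (codeB P) ↔ WN (goArena (grid n)) {Q | Q ∈ H} r c P`, `r = RW w = m + 2 (n n + 1)^2`.  hWNM (hGSC for `Sc`) : `↔ MW A (insert P {Q | Q ∈ H}) false c P`; hBMW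
turns this into `BWin` (for `c = false` with the negation).  `plW w = bn c`: two cases.
Hypotheses: hBND hENC hCOD hPLY hARE hTRN hGSC hWNM hBMW. -/
def StFIN : Prop := ∀ (n m : ℕ) (c : Bool) (P : Pos (Fin n × Fin n)) (H : List (Pos (Fin n × Fin n))), 1 ≤ n →
  Bd (goArena (grid n)) (m + 2 * (n * n + 1) ^ 2) P →
  (enc n m c P H ∈ LG ↔ BWin (goArena (grid n)) (insert P {Q | Q ∈ H}) false c P)

/-- RES (about 40 lines)
(The theorem.)
Proof.  `L = LG`: hPSP, hFIN with hMON (`m ≤ m + ..`), and hONE with `Nat.card (Fin n × Fin n) = n * n` for `m = 0`.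
Hypotheses: hPSP hFIN hONE hMON. -/
def StRES : Prop := ∃ L ∈ PSPACE (Fin 5),
  (∀ (n m : ℕ) (c : Bool) (P : Pos (Fin n × Fin n)) (H : List (Pos (Fin n × Fin n))), 1 ≤ n →
    Bd (goArena (grid n)) m P →
    (enc n m c P H ∈ L ↔ BWin (goArena (grid n)) (insert P {Q | Q ∈ H}) false c P)) ∧
  ∀ (n : ℕ) (c : Bool) (P : Pos (Fin n × Fin n)) (H : List (Pos (Fin n × Fin n))), 1 ≤ n →
    OneStone (grid n) P →
    (enc n 0 c P H ∈ L ↔ BWin (goArena (grid n)) (insert P {Q | Q ∈ H}) false c P)

end Pool.Agent.Helper79.GS
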