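import Pool.Agent.Helper79.GS.Defs2

/-!
# Project GS (MP_c2d095_lc): statements, part 3: perfect matchings, isolation, determinants
-/

set_option autoImplicit false

namespace Pool.Agent.Helper79.GS

/-- CIR (about 180 lines)
(The union of the perfect matchings of minimal weight has only circulations of weight zero.)
Proof.  Let `Mi` be the (finite) set of the perfect matchings `σ` of `E` of minimal weight, `K` its cardinality.  If `K = 0` then `z = 0`.  Let
`x i j = (number of the σ ∈ Mi with σ i = j) / K`, a doubly stochastic real matrix (`Mathlib`: `doublyStochastic ℝ (Fin n)`), with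
`Σ x w = m` (the minimal weight).  Let `ε > 0` with `ε * |z i j| * K ≤ 1` for all `i j` (for instance `ε = 1 / (K * (1 + Σ |z i j|))`).  Both
`x + ε z` and `x - ε z` are doubly stochastic: row and column sums are 1; nonnegative: if `z i j ≠ 0` then `x i j ≥ 1 / K`.
Birkhoff (`doublyStochastic_eq_convexHull_permMatrix` or `exists_eq_sum_perm_of_mem_doublyStochastic`): `x + ε z = Σ_τ λ τ * permMatrix τ`, `λ ≥ 0`,
`Σ λ = 1`.  If `λ τ > 0` then `(x + ε z) a (τ a) > 0` for all `a`, so `x a (τ a) ≠ 0` or `z a (τ a) ≠ 0`; in both cases some `σ ∈ Mi` has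
`σ a = τ a`, so `E a (τ a)`: `τ` is a perfect matching of `E` and its weight is `≥ m`.  So `Σ (x + ε z) w = Σ λ τ weight(τ) ≥ m`, hence
`Σ z w ≥ 0`; the same with `- z`.  (Orientation of permMatrix: `Equiv.Perm.permMatrix σ i j = 1` iff `σ i = j`, check; otherwise use `σ⁻¹`.)
Hypotheses: none. -/
def StCIR : Prop := ∀ (n : ℕ) (E : Fin n → Fin n → Prop) (w : Fin n → Fin n → ℕ) (z : Fin n → Fin n → ℤ),
  (∀ i, ∑ j, z i j = 0) → (∀ j, ∑ i, z i j = 0) →
  (∀ i j, z i j ≠ 0 → ∃ σ, PMt E σ ∧ (∀ τ, PMt E τ → wsum w σ ≤ wsum w τ) ∧ σ i = j) →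
  ∑ i, ∑ j, z i j * (w i j : ℤ) = 0

/-- WK1 (about 150 lines)
(Walks.)
Proof.  Inductions.  (concatenation) on the second walk.  (reversal) a step reversed has the negative vector (`fw` and `bw`, `stay`:
`-0 = 0`); prepend a step: from the concatenation with a walk of one step.  (splitting) induction on `q'`.  (size) a step vector has
entries of absolute value at most 1.  (support), (monotone) clear.  (sums) for a walk from `a` to `b` with vector `z`:
`Σ_j z i j = [a = inl i] - [b = inl i]` and `Σ_i z i j = [b = inr j] - [a = inr j]` (check for a step: `fw i j`: row `i`: 1, column `j`: 1; `bw`: row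
`i`: -1, column `j`: -1); for `a = b` both are zero.
Hypotheses: none. -/
def StWK1 : Prop := ∀ (n : ℕ) (E : Fin n → Fin n → Prop),
  (∀ q q' a b c z z', Wk E q a b z → Wk E q' b c z' → Wk E (q + q') a c (z + z')) ∧
  (∀ q a b z, Wk E q a b z → Wk E q b a (-z)) ∧
  (∀ q q' a c z, Wk E (q + q') a c z → ∃ b z1 z2, Wk E q a b z1 ∧ Wk E q' b c z2 ∧ z = z1 + z2) ∧
  (∀ q a b z, Wk E q a b z → ∀ i j, |z i j| ≤ (q : ℤ) ∧ (z i j ≠ 0 → E i j)) ∧
  (∀ q a z, Wk E q a a z → (∀ i, ∑ j, z i j = 0) ∧ (∀ j, ∑ i, z i j = 0)) ∧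
  (∀ (E' : Fin n → Fin n → Prop), (∀ i j, E' i j → E i j) → ∀ q a b z, Wk E' q a b z → Wk E q a b z) ∧
  (∀ q q' a b z, q ≤ q' → Wk E q a b z → Wk E q' a b z)

/-- CNT (about 120 lines)
(Few vectors of closed walks.)
Proof.  A closed walk with `4 q` steps from `a` to `a` splits (hWK1) into four walks with `q` steps `a → b → c → d → a` with vectors
`z1 .. z4`, `z = z1 + z2 + z3 + z4`.  Let another closed walk with the same `a, b, c, d` have the vectors `z1' .. z4'`: the first part of one followed by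
the reversed first part of the other is a closed walk with `2 q` steps and vector `z1 - z1'`, so `z1 = z1'` by `NoCyc`; the same for
the other parts: `z = z'`.  So a choice of `(a, b, c, d)` for every vector is an injection of the set into
`(Fin n ⊕ Fin n)^4` (`Set.ncard_le_ncard_of_injOn` or `Set.Finite.of_injOn`), cardinality `(2 n)^4`.
Hypotheses: hWK1. -/
def StCNT : Prop := ∀ (n : ℕ) (E : Fin n → Fin n → Prop) (q : ℕ), NoCyc E q →
  ({z | ∃ a, Wk E (4 * q) a a z} : Set (Fin n → Fin n → ℤ)).Finite ∧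
    ({z | ∃ a, Wk E (4 * q) a a z} : Set (Fin n → Fin n → ℤ)).ncard ≤ (2 * n) ^ 4

/-- MDL (about 60 lines)
(A small number which does not divide `P`.)
Proof.  Otherwise all `t ≤ 2 K` divide `P`.  Let `C = Nat.centralBinom K`.  For every prime `p`: `p ^ (C.factorization p) ≤ 2 K`
(`Nat.factorization_choose_le_log`, `Nat.pow_factorization_choose_le`), so it divides `P`, and `C ∣ P`
(`Nat.factorization_le_iff_dvd` / `Nat.factorization_prime_le_iff_dvd` with `Nat.Prime.pow_dvd_iff_le_factorization`), `C ≤ P < 2 ^ K`.  But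
`4 ^ K ≤ 2 * K * C` (`Nat.four_pow_le_two_mul_self_mul_centralBinom`) and `2 * K ≤ 2 ^ K`, so `C ≥ 2 ^ K`.
Hypotheses: none. -/
def StMDL : Prop := ∀ K P : ℕ, 1 ≤ K → 0 < P → P < 2 ^ K → ∃ t, 1 ≤ t ∧ t ≤ 2 * K ∧ ¬ t ∣ P

/-- NZB (about 90 lines)
(Expansions in a large base.)
Proof.  The exponents `i * n + j` run once through `0 .. n² - 1`.  Write `S = Σ_(e < N) c e B^e`, `N = n²`, `|c e| ≤ D`, `2 D + 1 ≤ B`.
Bound: `|S| ≤ D (B^N - 1)/(B - 1) < B^N` (`D ≤ B - 1`; if `B = 1` then `D = 0` and `z = 0`, excluded).  Nonzero: let `e0` be the least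
`e` with `c e ≠ 0`: `S = B^e0 (c e0 + B * integer)` and `c e0` is not divisible by `B`, as `0 < |c e0| ≤ D < B`.
Hypotheses: none. -/
def StNZB : Prop := ∀ (n D B : ℕ) (z : Fin n → Fin n → ℤ), 2 * D + 1 ≤ B → (∀ i j, |z i j| ≤ (D : ℤ)) → z ≠ 0 →
  (∑ i, ∑ j, z i j * (B : ℤ) ^ (i.val * n + j.val)) ≠ 0 ∧
    |∑ i, ∑ j, z i j * (B : ℤ) ^ (i.val * n + j.val)| < (B : ℤ) ^ (n * n)

/-- SED (about 130 lines)
(Good modulus for the weights.)  `n = 2 ^ L`.
Proof.  `B = 2^(L+3) = 8 n`, `D = 2 n`, `2 D + 1 ≤ B`.  For `z ∈ Z` let `S z` be the sum of hNZB: `0 < |S z| < B^(n²) = 2^((L+3) n²)`.  Let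
`P = Π_(z ∈ Z) |S z|` (`Finset.prod` over `hfin.toFinset`, natural numbers), `0 < P`, `P < 2^K` with `K = (L+3) n² (2n)^4 = 16 (L+3) n^6` (`K ≥ 1`; if
`Z` is empty `P = 1 < 2^K`; otherwise `P < (2^((L+3) n²))^(card Z)`).  hMDL: `t ≤ 2 K`, `¬ t ∣ P`, so `t` divides no `S z`.
`2 K = 32 (L + 3) 2^(6 L) ≤ 2^(7 L + 7)` as `L + 3 ≤ 2^(L+2)`.  `Σ z i j * we L t i j ≡ S z (mod t)` (`we` is `B^(i n + j) % t`), so it is not zero.
Hypotheses: hMDL hNZB. -/
def StSED : Prop := ∀ (L : ℕ) (Z : Set (Fin (2 ^ L) → Fin (2 ^ L) → ℤ)), Z.Finite → Z.ncard ≤ (2 * 2 ^ L) ^ 4 →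
  (∀ z ∈ Z, z ≠ 0 ∧ ∀ i j, |z i j| ≤ (2 * 2 ^ L : ℕ)) →
  ∃ t, 1 ≤ t ∧ t ≤ 2 ^ (7 * L + 7) ∧ ∀ z ∈ Z, ∑ i, ∑ j, z i j * (we L t i.val j.val : ℤ) ≠ 0

/-- UNQ (about 130 lines)
(Without cycles there is at most one perfect matching.)
Proof.  Let `σ ≠ τ` be perfect matchings of `E`, `τ i0 ≠ σ i0`.  Let `π i = σ⁻¹ (τ i)`, `i_(m+1) = π i_m`.  Let `l` be the order of the cycle of
`i0` under `π` (least `l ≥ 1` with `π^l i0 = i0`; `l ≤ n`; `Function.minimalPeriod`).  Two steps `inl i → inr (τ i) → inl (π i)` (as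
`σ (π i) = τ i`) with vector `un i (τ i) - un (π i) (τ i)`; after `2 l` steps the walk is closed, with vector
`z = Σ_(m<l) (un i_m (τ i_m) - un i_(m+1) (σ i_(m+1)))`.  The entry at `(i0, τ i0)`: `un i_m (τ i_m)` contributes 1 iff `i_m = i0` iff `m = 0`;
`un i (σ i)` contributes iff `i = i0` and `σ i0 = τ i0`, never.  So `z ≠ 0`.  `2 l ≤ 2 n ≤ 2 q`: pad with lazy steps (hWK1),
contradiction to `NoCyc E q`.
Hypotheses: hWK1. -/
def StUNQ : Prop := ∀ (n : ℕ) (E : Fin n → Fin n → Prop) (q : ℕ), n ≤ q → NoCyc E q →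
  ∀ σ τ, PMt E σ → PMt E τ → σ = τ

/-- RND (about 150 lines)
(One round of Fenner, Gurjar and Thierauf.)  `n = 2 ^ L`, `4 q ≤ 2 n`.
Proof.  `Z` = the nonzero vectors of closed walks of `E` with `4 q` steps: finite, at most `(2n)^4` (hCNT), entries at most `4 q ≤ 2 n` (hWK1).
hSED gives `t`.  Let `S'` be the set of the perfect matchings of `E` of minimal weight for `w = we L t` (nonempty: a minimum over a nonempty
finite set), `E' i j` iff some `σ ∈ S'` has `σ i = j` (as in the statement).  (a) `S' ⊆ PMt E'` clear, `E' ⊆ E`.  (b) Let `τ` be a perfect matching of `E'`, `σ ∈ S'`,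
`z = Σ_a (un a (τ a) - un a (σ a))`, that is `z i j = [τ i = j] - [σ i = j]`: row and column sums 0, supported on `E'`; hCIR gives
`wsum w τ = wsum w σ`, so `τ` has minimal weight.  (c) `NoCyc E' (2 q)`: a closed walk of `E'` with `2 (2 q) = 4 q` steps is a closed walk of
`E`; its vector `z` is supported on `E'` with zero sums, so `Σ z w = 0` (hCIR); if `z ≠ 0` then `z ∈ Z` and `Σ z w ≠ 0`.
Hypotheses: hCIR hWK1 hCNT hSED. -/
def StRND : Prop := ∀ (L : ℕ) (E : Fin (2 ^ L) → Fin (2 ^ L) → Prop) (q : ℕ), 4 * q ≤ 2 * 2 ^ L → NoCyc E q →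
  (∃ σ, PMt E σ) → ∃ t, 1 ≤ t ∧ t ≤ 2 ^ (7 * L + 7) ∧ ∃ E' : Fin (2 ^ L) → Fin (2 ^ L) → Prop,
    (∀ i j, E' i j → E i j) ∧ (∃ σ, PMt E' σ) ∧ NoCyc E' (2 * q) ∧
    ∀ σ, PMt E' σ → ∀ τ, PMt E τ →
      (wsum (fun i j => we L t i.val j.val) σ ≤ wsum (fun i j => we L t i.val j.val) τ ∧
        (wsum (fun i j => we L t i.val j.val) τ ≤ wsum (fun i j => we L t i.val j.val) σ → PMt E' τ))

/-- ISO (about 180 lines)
(Isolation.)
Proof.  `NoCyc E 1`: a closed walk with 2 lazy steps has vector 0 (cases).  hRND `L` times (round `r`, `q = 2^r`, `4 q ≤ 2 * 2^L` for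
`r < L`) gives `E = E_0 ⊇ E_1 ⊇ .. ⊇ E_L` and moduli `t 0, .., t (L-1)` (put `t r = 1` for `r ≥ L`) with: all perfect matchings of `E_(r+1)` have the same, minimal `we L (t r)` weight
among those of `E_r`, and a perfect matching of `E_r` with this weight is one of `E_(r+1)`; `NoCyc E_r (2^r)`.  (Construct the sequence by induction on the number
of rounds: statement `∀ m ≤ L, ∃ t E_m, .. ∧` the lexicographic property below up to `m`.)  `E_L` has exactly one perfect matching `σ₀` (hUNQ with `q = 2^L`, `n = 2^L`).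
Let `τ ≠ σ₀` be a perfect matching of `E`: let `r < L` be the least with `τ` not a perfect matching of `E_(r+1)`.  So `w_j(τ) = w_j(σ₀)` for
`j < r`, `w_r(τ) ≥ w_r(σ₀) + 1`, `w_j` the sum of `we L (t j)`.  With `C = 2^(8L+8)`: `w_j(σ) ≤ n (2^(7L+7) - 1) < C`, so
`Σ_(j > r) w_j(σ₀) C^(L-1-j) ≤ (C - 1) Σ_(j>r) C^(L-1-j) < C^(L-1-r)`.  The weight is `Σ_j w_j C^(L-1-j)` (exchange of sums): strictly smaller for `σ₀`.
Hypotheses: hRND hUNQ. -/
def StISO : Prop := ∀ (L : ℕ) (E : Fin (2 ^ L) → Fin (2 ^ L) → Prop), (∃ σ, PMt E σ) →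
  ∃ t : ℕ → ℕ, (∀ r, 1 ≤ t r ∧ t r ≤ 2 ^ (7 * L + 7)) ∧ ∃ σ₀, PMt E σ₀ ∧ ∀ τ, PMt E τ → τ ≠ σ₀ →
    wsum (fun i j => wt L t i.val j.val) σ₀ < wsum (fun i j => wt L t i.val j.val) τ

/-- DNZ (about 170 lines)
(A nonzero value of the determinant modulo a small number.)
Proof.  hISO gives `t`, `σ₀`.  `D(X) = det (if E i j then X^(wt i j) else 0)` in `ℤ[X]`, `= Σ_σ sgn σ Π ..` (`Matrix.det_apply`; orientation `M (σ i) i` or `M i (σ i)`:
use `Matrix.det_transpose` or `σ⁻¹`), the terms are `± X^(wsum σ)` for the perfect matchings `σ` and 0 otherwise.  The coefficient at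
`wsum σ₀` is `± 1` (all the others have larger weight).  Degrees: `wt L t i j ≤ Σ_r (2^(7L+7) - 1) C^(L-1-r) < C^L = 2^(8L²+8L)` (for `t r ≤ 2^(7L+7)`,
`we < t r`), so all weights `wsum σ ≤ n * (2^(8L²+8L) - 1) < G := 2^(8L²+9L)`.  Bertrand (`Nat.exists_prime_lt_and_le_two_mul`): a prime `p`, `G < p ≤ 2 G`.  `D` modulo
`p` is a nonzero polynomial over the field `ZMod p` of degree `< p`: it has a non-root `x ∈ {0, .., p-1}` (`Polynomial.card_roots'`, cardinality of
`ZMod p`).  The integer `D(x)` is not 0 modulo `p` (`Int.cast` to `ZMod p`, `ZMod.intCast_zmod_eq_zero_iff_dvd`; evaluation commutes with maps,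
`RingHom.map_det`, `Polynomial.eval_map`).  Parameter `ξ`: digits `t r - 1 < 2^(7L+7)` for `r < L` (put `sv = Σ_(r<L) (t r - 1) (2^(7L+7))^r < (2^(7L+7))^L`), then `q - 1 = p - 1 < Qb L`,
`x < Qb L`: `ξ = sv + (2^(7L+7))^L * ((p - 1) + Qb L * x) < Xb L`.  `xt L ξ r = t r` for `r < L` (`wt` uses only these), `xq L ξ = p`, `xx L ξ = x`.
(→ of the other direction:) if the determinant is not 0 modulo something it is not 0, so some term of the expansion is not 0: a perfect matching.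
Hypotheses: hISO. -/
def StDNZ : Prop := ∀ (L : ℕ) (E : ℕ → ℕ → Prop),
  (∃ σ : Equiv.Perm (Fin (2 ^ L)), ∀ i : Fin (2 ^ L), E i.val (σ i).val) ↔
    ∃ ξ < Xb L, ¬ ((xq L ξ : ℤ) ∣ (Matrix.of (fun i j : Fin (2 ^ L) => aM L E ξ i.val j.val)).det)

/-- PAD (about 170 lines)
(Matchings of given size and perfect matchings.)  `E` is supported on `[0, Nb)²`, `m ≤ Nb`, `2 Nb ≤ n`.
Proof.  (←) Let `σ` be a perfect matching of `padE`.  The rows `i < Nb` with `σ i < Nb` satisfy `E i (σ i)`; the other rows `i < Nb` have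
`Nb ≤ σ i < 2 Nb - m` (the last clause of `padE` needs `2 Nb - m ≤ i`, impossible), so there are at most `Nb - m` of them (injective), so at least
`m` of the first kind: a matching of size `≥ m`, take a subset.  (→) Let `M` be a matching of size `m` in `E`; its rows and columns are `< Nb`.
Define `σ` : the rows of `M` to their partners; the `Nb - m` rows `< Nb` outside `M` bijectively to `[Nb, 2 Nb - m)`; the rows in
`[Nb, 2 Nb - m)` bijectively to the `Nb - m` columns `< Nb` outside `M`; `i ≥ 2 Nb - m` to `i`.  An injective map `Fin n → Fin n`, so a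
permutation (`Equiv.ofBijective`, `Finite.injective_iff_bijective`); or use Hall's theorem / cardinalities of complements
(`Finset.equivOfCardEq`).
Hypotheses: none. -/
def StPAD : Prop := ∀ (E : ℕ → ℕ → Prop) (Nb m n : ℕ), (∀ i j, E i j → i < Nb ∧ j < Nb) → m ≤ Nb → 2 * Nb ≤ n →
  (Mat E m ↔ ∃ σ : Equiv.Perm (Fin n), ∀ i : Fin n, padE E Nb m i.val (σ i).val)

/-- SCH (about 120 lines)
(Schur complement over power series.)  `R⟦X⟧`, `P h = det (1 - X M_h)`, `M_h` the matrix `a` on the indices `≥ h`.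
Proof.  Block matrix with the first row and column split off: `1 - X M_h = [[1 - X a_hh, -X r],[-X c, D]]`, `D = 1 - X M_(h+1)`.  With the adjugate:
`det [[α, r'],[c', D]] = α det D - r' (adjugate D) c'` (`Matrix.det_fromBlocks₂₂` when `D` is invertible: over power series `det D` has
constant coefficient 1, so it is a unit and `D` is invertible; `adjugate D = det D • D⁻¹`).  If `v` is a vector with `D v = X δ c` (that is
`v i = X δ a_ih + X Σ_j a_ij v_j`), then `det D • v = X δ adjugate(D) c`.  So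
`P (h+1) * (X δ - ..)`: compute `P (h+1) * (f - X a_hh δ' - X Σ_j a_hj v_j)` with `δ' = δ`: stated as: for power series `f`, `δ = X f`, and `v` as above,
`P (h+1) * (X f - X a_hh δ - X Σ_j a_hj v_j) = X f * P h`.  Check: `X Σ_j a_hj v_j P(h+1) = X * r (X δ adjugate(D) c) = X f * (X² r adjugate(D) c)`,
and `P h = (1 - X a_hh) P(h+1) - X² r adjugate(D) c`.
Formulation with sums over all indices `j < n`, `j > h`: `N = n - h - 1`, indices `h + 1 + j`, `j : Fin N`.
Hypotheses: none. -/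
def StSCH : Prop := ∀ (R : Type) [CommRing R] (a : ℕ → ℕ → R) (h N : ℕ) (f : PowerSeries R) (v : Fin N → PowerSeries R),
  (∀ i, v i = PowerSeries.X * (PowerSeries.C (a (h + 1 + i) h) * (PowerSeries.X * f)) +
    PowerSeries.X * ∑ j : Fin N, PowerSeries.C (a (h + 1 + i) (h + 1 + j)) * v j) →
  (1 - (PowerSeries.X : PowerSeries R) • (Matrix.of (fun i j : Fin N => PowerSeries.C (a (h + 1 + i) (h + 1 + j))))).det *
      (PowerSeries.X * f - PowerSeries.X * (PowerSeries.C (a h h) * (PowerSeries.X * f)) -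
        PowerSeries.X * ∑ j : Fin N, PowerSeries.C (a h (h + 1 + j)) * v j) =
    PowerSeries.X * f *
      (1 - (PowerSeries.X : PowerSeries R) • (Matrix.of (fun i j : Fin (N + 1) => PowerSeries.C (a (h + i) (h + j))))).det

/-- TRF (about 220 lines)
(The determinant is an entry of a power of the transfer matrix.)
Proof.  Let `T` be the transfer matrix on `Fin ((n+1)(n+2))`, `F s k = (T^k) s (n(n+2)+n)`; `F s 0 = [s = n(n+2)+n]`, `F s (k+1) = Σ_s' T s s' F s' k`
(`pow_succ'`).  States `(h, u) = h (n+2) + u`.  Put `I h k = F (h, n) k`, `Dn h k = F (h, n+1) k`, `V h u k = F (h, u) k` for `h < u < n`.  From the definition of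
`trE`: for `h < n`: `I h (k+1) = I (h+1) k - a h h * Dn h k - Σ_(h<u<n) a h u * V h u k`; `Dn h (k+1) = I (h+1) k`;
`V h u (k+1) = a u h * Dn h k + Σ_(h<u'<n) a u u' * V h u' k`; all are 0 at `k = 0`, except `I n 0 = 1`; `I n (k+1) = 0` (the row of `(n, n)` is zero).
As power series (`PowerSeries.mk`): `Î h = X Î(h+1) - X a_hh D̂ h - X Σ a_hu V̂ h u`, `D̂ h = X Î(h+1)`, `V̂ h u = X a_uh D̂ h + X Σ_u' a_uu' V̂ h u'`, `Î n = 1`.
Claim by downward induction on `h`: `Î h = X^(n-h) * P h`, `P h = det (1 - X M_h)`.  Step: hSCH with `f = Î(h+1)`, `N = n - h - 1`, `v j = V̂ h (h+1+j)`: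
`P (h+1) * Î h = X Î(h+1) P h = X^(n-h) P(h+1) P h`; cancel `P (h+1)` (constant coefficient 1, a unit in `R⟦X⟧`).
So the coefficient of `X^(2n)` of `Î 0` is the coefficient of `X^n` of `det (1 - X M)`, `M` the `n × n` matrix, which is `det (-M) = (-1)^n det M`: expand the
determinant, or: `det (1 - X M) = Σ`; the coefficient of `X^n` of `Π (c_i + X d_i)` (`n` factors) is `Π d_i` (in `Matrix.det_apply`); Mathlib may have
`Matrix.charpolyRev` (`= det (1 - X • M)`) with `Matrix.coeff_charpolyRev..`/`reverse_charpoly`: use whatever is convenient.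
Hypotheses: hSCH. -/
def StTRF : Prop := ∀ (n : ℕ) (a : ℕ → ℕ → ℤ) (i0 i1 : Fin ((n + 1) * (n + 2))), i0.val = n → i1.val = n * (n + 2) + n →
  ((Matrix.of (fun s s' : Fin ((n + 1) * (n + 2)) => trE n a s s')) ^ (2 * n)) i0 i1 =
    (-1) ^ n * (Matrix.of (fun i j : Fin n => a i j)).det

/-- TRQ (about 50 lines)
(Repeated squaring.)  Proof.  Induction on `d`: `trP n a d s s' = (T ^ (2 ^ d)) s s'` for `s, s' < (n+1)(n+2)` (`pow_succ`, `pow_mul`,
`Matrix.mul_apply`, `Finset.sum_range`).  For `n = 2 ^ L`, `d = L + 1`: `2 ^ (L+1) = 2 n`.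
Hypotheses: hTRF. -/
def StTRQ : Prop := ∀ (L : ℕ) (a : ℕ → ℕ → ℤ),
  trP (2 ^ L) a (L + 1) (2 ^ L) (2 ^ L * (2 ^ L + 2) + 2 ^ L) =
    (-1) ^ (2 ^ L) * (Matrix.of (fun i j : Fin (2 ^ L) => a i j)).det

/-- CRI (about 60 lines)
(The criterion.)  Proof.  hPAD with `n = 2 ^ L`, hDNZ for `padE E Nb m`, hTRQ (the sign does not change divisibility).
Hypotheses: hPAD hDNZ hTRQ. -/
def StCRI : Prop := ∀ (L Nb m : ℕ) (E : ℕ → ℕ → Prop), (∀ i j, E i j → i < Nb ∧ j < Nb) → m ≤ Nb → 2 * Nb ≤ 2 ^ L →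
  (Mat E m ↔ ∃ ξ < Xb L, ¬ ((xq L ξ : ℤ) ∣
    trP (2 ^ L) (aM L (padE E Nb m) ξ) (L + 1) (2 ^ L) (2 ^ L * (2 ^ L + 2) + 2 ^ L)))

end Pool.Agent.Helper79.GS
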