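import Pool.Agent.Helper79.GS.Defs3

/-!
# Project GS (MP_c2d095_lc): statements, part 4: recursive procedures in polynomial space
-/

set_option autoImplicit false

namespace Pool.Agent.Helper79.GS

open Pool.Agent.Helper73.DC

/-- SPM (about 60 lines)
(Polynomial bounds.)
Proof.  `OTM.Decides` with a space bound `s` implies it with every larger bound.  So `L ∈ DSPACE S` and `S n ≤ C * n ^ k + C` for all `n` give
`L ∈ DSPACE (n ^ k)`.  `((n + 2) ^ c + 1) * Nat.log 2 (n + 2) ≤ (n + 2) ^ (c + 2) ≤ 3 ^ (c+2) * n ^ (c + 2) + 2 ^ (c + 2)` (`n = 0`: `0 ^ (c+2) = 0`; `n ≥ 1`: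
`n + 2 ≤ 3 n`; `Nat.log 2 (n+2) ≤ n + 2 - 1`, so `(x^c + 1)(x - 1) ≤ x^(c+2)` for `x = n + 2 ≥ 2`).
Hypotheses: none. -/
def StSPM : Prop := ∀ (α : Type) (c : ℕ) (L : Set (List α)),
  L ∈ DSPACE (α := α) (fun n => ((n + 2) ^ c + 1) * Nat.log 2 (n + 2)) → L ∈ PSPACE α

/-- STK (about 100 lines)
(The stack machine evaluates frames.)
Proof.  Induction on `Ev`.  `ret`: one step.  `call`: one step to `(false, cal f, f :: st)`; by induction (with the stack `f :: st`) at most `t1` steps
to `(true, u, f :: st)`, with stacks of length at most `st.length + 1 + d`; one step to `(false, nxt f u, st)`; at most `t2` steps to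
`(true, v, st)`.  `Function.iterate_add_apply`.  The bounds `< N` for the frames and values: by the hypothesis `hN` on frames `< N`, carried through
the induction (the frames in `st` are assumed `< N`; the new frames `f`, `cal f`, `nxt f u` and the values are `< N`).
Hypotheses: none. -/
def StSTK : Prop := ∀ (fin : ℕ → Prop) (out cal : ℕ → ℕ) (nxt : ℕ → ℕ → ℕ) (N : ℕ),
  (∀ f < N, (fin f → out f < N) ∧ (¬ fin f → cal f < N ∧ ∀ u < N, nxt f u < N)) →
  ∀ d t f v, Ev fin out cal nxt d t f v → f < N → v < N ∧ ∀ st : List ℕ, (∀ g ∈ st, g < N) → ∃ k ≤ t,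
    (sstep fin out cal nxt)^[k] (false, f, st) = (true, v, st) ∧
    ∀ i ≤ k, ((sstep fin out cal nxt)^[i] (false, f, st)).2.1 < N ∧
      (∀ g ∈ ((sstep fin out cal nxt)^[i] (false, f, st)).2.2, g < N) ∧
      ((sstep fin out cal nxt)^[i] (false, f, st)).2.2.length ≤ st.length + d

/-- SPC (about 280 lines, important)
(Recursive procedures of polynomial depth are in PSPACE.)
Proof.  Let `N = NN c w`, `ℓ = |w|`.  Code of a state: stack `st` is coded by `S [] = 0`, `S (g :: st) = S st * (N + 1) + (g + 1)` (so `S < (N+1)^(length)`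
if all `g < N`; the top is `S % (N+1) - 1`, the rest `S / (N+1)`, and `S = 0` iff the stack is empty), the state `(b, x, st)` by
`S st * (2 N) + (2 x + (if b then 1 else 0))` for `x < N`.  The code of the next state is an E2 function of the code `y` and of `N`: with
`x = y % (2N) / 2`, `b = y % 2` (`2N` is even), `S = y / (2N)`: if `b = 0`: if `fin (x, N)` then `S * 2N + 2 out + 1` else
`(S * (N+1) + x + 1) * 2N + 2 cal`; if `b = 1`: if `S = 0` then `y` else `(S / (N+1)) * 2N + 2 nxt(S % (N+1) - 1, x)`.  All tools are in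
`Pool/Agent/Helper79/GS/Lib.lean` (`e_ite`, `e_div`, `e_mod`, `e_substP`, `e_subst` ..): contexts: `fin`, `out`, `cal` have the context
`(f, N)`, `nxt` the context `(f, u, N)`, `f0` the context `(N)`.
The program: context `(M)`, `M = NN c' w` with `c'` large (`c' = 2 c + 10` is enough).  `N` is computed as `pw M (ℓ + 2) ((ℓ + 2)^c)` (equal to `N` as `N ≤ M`;
`e_pw`, `e_powc`).  Iterate `M` times the map `y ↦ min (next y) M` from the code of `(false, f0, [])` (truncated by `M` as well): E2 by `e_rec` with the bound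
`M`.  Correctness: hSTK with the empty stack: the states `i ≤ k` have stacks of length `≤ D = (ℓ+2)^c`, so codes
`< (N+1)^D * 2N ≤ M`, so there is no truncation (induction on `i`; the code of `sstep s` is `next` of the code of `s`); after `k ≤ t ≤ N^D ≤ M` steps the state is
`(true, v, [])`, which does not change any more.  So after `M` steps the code is `2 v + 1` and the output
`(y % (2 N)) / 2` is `v`.  Inequality: `(N+1)^D * 2N ≤ N^(2 D + 2)` (`N ≥ 2`), `N^(2D+2) = (ℓ+2)^((ℓ+2)^c (2 (ℓ+2)^c + 2)) ≤ (ℓ+2)^((ℓ+2)^c')`.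
`tTOP` with `Rf n = (n + 2)^c'` (E2: `e_powc`), output function as above; then hSPM.
Hypotheses: hSTK hSPM. -/
def StSPC : Prop := ∀ (α : Type) [Fintype α] (fin : List α → (ℕ → ℕ) → Prop) (out cal nxt f0 : VF α) (c : ℕ) (L : Set (List α)),
  E2P fin → E2 out → E2 cal → E2 nxt → E2 f0 →
  (∀ w, ∀ f < NN c w, (fin w (scons f (scons (NN c w) zc)) → out w (scons f (scons (NN c w) zc)) < NN c w) ∧
    (¬ fin w (scons f (scons (NN c w) zc)) → cal w (scons f (scons (NN c w) zc)) < NN c w ∧
      ∀ u < NN c w, nxt w (scons f (scons u (scons (NN c w) zc))) < NN c w)) →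
  (∀ w, f0 w (scons (NN c w) zc) < NN c w ∧ ∃ v,
    Ev (fun f => fin w (scons f (scons (NN c w) zc))) (fun f => out w (scons f (scons (NN c w) zc)))
      (fun f => cal w (scons f (scons (NN c w) zc))) (fun f u => nxt w (scons f (scons u (scons (NN c w) zc))))
      ((w.length + 2) ^ c) (NN c w ^ ((w.length + 2) ^ c)) (f0 w (scons (NN c w) zc)) v ∧ (v ≠ 0 ↔ w ∈ L)) →
  L ∈ PSPACE α

/-- REC (about 300 lines, important)
(Recursion with loops.)  `N = NN c w`.  A procedure has an argument `z` (valid if `Ok w z`), runs through a loop `j = 0, .., len - 1` with an accumulator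
`a`; in the step `j` it calls itself with the argument `del (z, j, a)`; the result is `out (z, a)`.  Contexts: `ini`, `len`: `(z, N)`; `del`:
`(z, j, a, N)`; `stp`: `(z, j, a, x, N)` with `x` the value returned by the call; `out`: `(z, a, N)`; `z0`: `(N)`.
Proof.  Frames `f = z + N j + N² a` with `z, j, a < N`, in the large number `M = NN c' w`, `c' = c + 3`, `M ≥ N³`, `3 N ≤ M` (`(ℓ+2)^(c+3) ≥ 8 (ℓ+2)^c`).  E2 functions of
`(f, M)`: `N = pw M (ℓ+2) ((ℓ+2)^c)`, `z = f % N`, `j = f / N % N`, `a = f / (N N) % N`.  `fin f`: `¬ j < len (z, N)` (or an invalid frame is treated in the same way;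
to keep all values `< M`, take the minimum of every output with `M - 1`, harmless for valid frames).  `cal f`: `z' = del (z, j, a, N)`, frame
`z' + N * 0 + N² * ini (z', N)`.  `nxt f u = z + N (j + 1) + N² stp (z, j, a, u, N)`; `out f = out (z, a, N)`.
Claim: for valid `z` with `rk z ≤ r`: `Ev (r + 1) ((3 N)^(r+1)) (frame z 0 ini) (Val z)`.  Induction on `r`; `A j` = accumulator after `j` steps (the `Nat.rec` in the
hypothesis), `A j < N`.  Downward induction on `j ≤ len`: `Ev (r + 1) ((len - j) * (T + 2) + 1) (frame z j (A j)) (Val z)` where `T = (3N)^r` bounds the time of the calls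
(`rk (del ..) < rk z ≤ r`; if `rk z = 0` then `len = 0`).  `(N - 1) (T + 2) + 1 ≤ (3 N)^(r+1)`.  (`Ev` is monotone in the depth and in the time: prove it by
induction.)  So the depth is at most `(ℓ+2)^c ≤ (ℓ+2)^c'` and the time at most `(3N)^((ℓ+2)^c) ≤ M^((ℓ+2)^c')`.  hSPC with `c'`.
Hypotheses: hSPC. -/
def StREC : Prop := ∀ (α : Type) [Fintype α] (ini len del stp out z0 : VF α) (c : ℕ) (L : Set (List α))
  (Ok : List α → ℕ → Prop) (Val rk : List α → ℕ → ℕ),
  E2 ini → E2 len → E2 del → E2 stp → E2 out → E2 z0 →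
  (∀ w z, Ok w z → z < NN c w ∧ rk w z < (w.length + 2) ^ c ∧
    ini w (scons z (scons (NN c w) zc)) < NN c w ∧ len w (scons z (scons (NN c w) zc)) < NN c w ∧
    (∀ j < len w (scons z (scons (NN c w) zc)), ∀ a < NN c w,
      Ok w (del w (scons z (scons j (scons a (scons (NN c w) zc))))) ∧
      rk w (del w (scons z (scons j (scons a (scons (NN c w) zc))))) < rk w z ∧
      ∀ x < NN c w, stp w (scons z (scons j (scons a (scons x (scons (NN c w) zc))))) < NN c w) ∧
    (∀ a < NN c w, out w (scons z (scons a (scons (NN c w) zc))) < NN c w) ∧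
    Val w z = out w (scons z (scons (Nat.rec (ini w (scons z (scons (NN c w) zc)))
      (fun j a => stp w (scons z (scons j (scons a (scons
        (Val w (del w (scons z (scons j (scons a (scons (NN c w) zc)))))) (scons (NN c w) zc))))))
      (len w (scons z (scons (NN c w) zc))) : ℕ) (scons (NN c w) zc)))) →
  (∀ w, Ok w (z0 w (scons (NN c w) zc)) ∧ (Val w (z0 w (scons (NN c w) zc)) ≠ 0 ↔ w ∈ L)) → L ∈ PSPACE α

end Pool.Agent.Helper79.GS
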