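import Pool.Agent.Helper79.GS.Defs5
import Pool.Agent.Helper79.GS.St3
import Pool.Agent.Helper79.GS.St4

/-!
# Project GS (MP_c2d095_lc): statements, part 5: the procedure
-/

set_option autoImplicit false

namespace Pool.Agent.Helper79.GS

open Pool.Agent.Helper19.SK Pool.Agent.Helper73.DC Finset
open scoped Classical

/-- BND (about 150 lines)
(Sizes.)  `N = NN 16 w`, `n = nW w`, `L = LL n`, `ℓ = |w|`.
Proof.  `n ≤ pos1 w ≤ ℓ` (`bmin b p ≤ b`: `tL7`, last clause).  With `X = ℓ + 2 ≥ 2`: `n² + 1 ≤ X²`, `L + 1 = 2 n² + 2 ≤ 2 X²`,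
`Λ = 32 (L+1)² + ℓ ≤ 129 X⁴`, `14 Λ ≤ 1806 X⁴ ≤ X^15` (`1806 ≤ 2^11 ≤ X^11`).  So `(2^Λ)^14 ≤ 2^(X^15) ≤ X^(X^16) = N`, and
`pw N 2 e = 2^e` for `e ≤ 14 Λ` (`pw cap b e = min (b^e) (cap + 1)`), `pw N 3 e = 3^e` for `e ≤ 7 Λ` (`3^e ≤ 2^(2e)`).  `3^(n²) ≤ 4^(n²) = 2^(2 n²)`, so
`2 * 3^(n²) ≤ 2^L`.  `Qb L = 2^(8L²+9L+2)`, `Xb L = 2^((7L+7)L + 2(8L²+9L+2))` (`pow_mul`, `pow_add`), exponent `23 L² + 25 L + 4 < 32 (L+1)²`.
`(2^L+1)(2^L+2) ≤ 2^(2L+3)`.  `RW w ≤ ℓ + 2 (n²+1)² < 2^ℓ * 2^(32 (L+1)²)` (`ℓ < 2^ℓ`, `2 (n²+1)² ≤ 2^(..)`).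
Hypotheses: none. -/
def StBND : Prop := ∀ w : List (Fin 5),
  (∀ e ≤ 14 * (32 * (LL (nW w) + 1) ^ 2 + w.length), pw (NN 16 w) 2 e = 2 ^ e) ∧
  (∀ e ≤ 7 * (32 * (LL (nW w) + 1) ^ 2 + w.length), pw (NN 16 w) 3 e = 3 ^ e) ∧
  PhN (NN 16 w) w = 2 ^ (32 * (LL (nW w) + 1) ^ 2 + w.length) ∧ PhN (NN 16 w) w ^ 14 ≤ NN 16 w ∧
  NbN (NN 16 w) w = 3 ^ (nW w * nW w) ∧ 2 * 3 ^ (nW w * nW w) ≤ 2 ^ LL (nW w) ∧ nmN (NN 16 w) w = 2 ^ LL (nW w) ∧
  SdN (NN 16 w) w = (2 ^ LL (nW w) + 1) * (2 ^ LL (nW w) + 2) ∧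
  QbN (NN 16 w) (LL (nW w)) = Qb (LL (nW w)) ∧ XbN (NN 16 w) (LL (nW w)) = Xb (LL (nW w)) ∧
  3 ^ (nW w * nW w) + 2 < PhN (NN 16 w) w ∧ (2 ^ LL (nW w) + 1) * (2 ^ LL (nW w) + 2) < PhN (NN 16 w) w ∧
  Xb (LL (nW w)) < PhN (NN 16 w) w ∧ Qb (LL (nW w)) < PhN (NN 16 w) w ∧ RW w < PhN (NN 16 w) w ∧
  nW w * nW w + 2 < PhN (NN 16 w) w ∧ LL (nW w) + 2 < PhN (NN 16 w) w ∧ 16 ≤ PhN (NN 16 w) w ∧ nW w ≤ w.length

/-- FLD (about 150 lines)
(Fields.)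
Proof.  For a list `l` of numbers `< B`, `2 ≤ B`: `dg B (Nat.ofDigits B l) i = l.getD i 0` (induction on `l`: `Nat.ofDigits_cons`,
`x / B^(i+1) = x / B / B^i`, `(a + B y) / B = y`, `(a + B y) % B = a`).  By hBND and `OkF` all 13 fields are `< PhN`, and
`zz < PhN ^ 13 ≤ NN 16 w` (`Nat.ofDigits_lt_base_pow_length'`).  `ValW w 0 = 0`, `rkW w 0 = 0`: the field 0 of `0` is `0`.
Hypotheses: hBND. -/
def StFLD : Prop := ∀ w : List (Fin 5), ValW w 0 = 0 ∧ rkW w 0 = 0 ∧ OkW w 0 ∧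
  ∀ T r c a b u k m fl d s t x, OkF w T r c a b u k m fl d s t x →
    (fi (NN 16 w) w (zz (NN 16 w) w T r c a b u k m fl d s t x) 0 = T ∧
    fi (NN 16 w) w (zz (NN 16 w) w T r c a b u k m fl d s t x) 1 = r ∧
    fi (NN 16 w) w (zz (NN 16 w) w T r c a b u k m fl d s t x) 2 = c ∧
    fi (NN 16 w) w (zz (NN 16 w) w T r c a b u k m fl d s t x) 3 = a ∧
    fi (NN 16 w) w (zz (NN 16 w) w T r c a b u k m fl d s t x) 4 = b ∧
    fi (NN 16 w) w (zz (NN 16 w) w T r c a b u k m fl d s t x) 5 = u ∧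
    fi (NN 16 w) w (zz (NN 16 w) w T r c a b u k m fl d s t x) 6 = k ∧
    fi (NN 16 w) w (zz (NN 16 w) w T r c a b u k m fl d s t x) 7 = m ∧
    fi (NN 16 w) w (zz (NN 16 w) w T r c a b u k m fl d s t x) 8 = fl ∧
    fi (NN 16 w) w (zz (NN 16 w) w T r c a b u k m fl d s t x) 9 = d ∧
    fi (NN 16 w) w (zz (NN 16 w) w T r c a b u k m fl d s t x) 10 = s ∧
    fi (NN 16 w) w (zz (NN 16 w) w T r c a b u k m fl d s t x) 11 = t ∧
    fi (NN 16 w) w (zz (NN 16 w) w T r c a b u k m fl d s t x) 12 = x) ∧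
    zz (NN 16 w) w T r c a b u k m fl d s t x < NN 16 w ∧
    ValW w (zz (NN 16 w) w T r c a b u k m fl d s t x) = ValF w T r c a b u k m fl d s t x ∧
    rkW w (zz (NN 16 w) w T r c a b u k m fl d s t x) = rkF w T r k d ∧
    OkW w (zz (NN 16 w) w T r c a b u k m fl d s t x)

/-- RKB (about 60 lines)
(Ranks.)
Proof.  Cases of `OkW`; `z = 0`: `0 < NN`, rank 0.  Otherwise hFLD.  With `X = ℓ + 2`, `n ≤ ℓ` (hBND): `n² + 2 ≤ X²`, `L + 6 = 2 n² + 7 ≤ 4 X²`, `r ≤ RW w ≤ ℓ + 2 (n²+1)² ≤ 3 X⁴`,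
`A = (n²+2)(L+6) + 2 ≤ 6 X⁴`, the second summand of `rkF` is at most `A + 10` (`k ≤ n² + 1`, `d ≤ L + 1`), so the rank is `≤ 3 X⁴ * 6 X⁴ + 6 X⁴ + 10 < X^16`.
Hypotheses: hBND hFLD. -/
def StRKB : Prop := ∀ (w : List (Fin 5)) (z : ℕ), OkW w z → z < NN 16 w ∧ rkW w z < (w.length + 2) ^ 16

/-- WTN (about 90 lines)
(Weights.)  `N = NN 16 w`, `L = LL (nW w)`.
Proof.  All truncated powers in `wtN`, `xqN`, `xxN` are the powers (hBND, exponents at most `14 Λ`: `(8 L + 8)(L - 1 - r) ≤ 8 (L+1)²` etc.).  `dg B x r = x / B^r % B`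
by definition, so `dg (2^(7L+7)) x r + 1 = xt L x r`, and the summands are `we L (xt L x r) i j * (2^(8L+8))^(L-1-r)` (`pow_mul`).  `xx L x`: the divisor
`(2^(7L+7))^L * Qb L = 2^((7L+7)L + (8L²+9L+2))`.
Hypotheses: hBND. -/
def StWTN : Prop := ∀ (w : List (Fin 5)) (x i j : ℕ),
  wtN (NN 16 w) (LL (nW w)) x i j = wt (LL (nW w)) (xt (LL (nW w)) x) i j ∧
  xqN (NN 16 w) (LL (nW w)) x + 1 = xq (LL (nW w)) x ∧ xxN (NN 16 w) (LL (nW w)) x = xx (LL (nW w)) x ∧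
  evN (NN 16 w) (LL (nW w)) x i j =
    xx (LL (nW w)) x ^ wt (LL (nW w)) (xt (LL (nW w)) x) i j % xq (LL (nW w)) x ∧
  1 ≤ xq (LL (nW w)) x ∧ xq (LL (nW w)) x ≤ Qb (LL (nW w))

/-- TRC (about 60 lines)
(Kinds of entries.)  Proof.  Unfold `trE`, `trK`, `trI`, `trJ` and split all cases.  Hypotheses: none. -/
def StTRC : Prop := ∀ (n : ℕ) (a : ℕ → ℕ → ℤ) (s t : ℕ), trK n s t ≤ 3 ∧
  trE n a s t = if trK n s t = 1 then 1 else if trK n s t = 2 then -a (trI n s) (trJ n s t)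
    else if trK n s t = 3 then a (trI n s) (trJ n s t) else 0

/-- ARN (about 100 lines)
(The arena and the functions of numbers.)  `c ≤ 1`.
Proof.  `bn (cB c) = c`, `!(cB c) = cB (1 - c)`.  `(AW w).mv (cB c) u x` is `mvN (NN 16 w) (nW w) c u x`.  `ahead`: `0 < s` iff `areaN .. 0 u < areaN .. 1 u` (`omega` after
unfolding).  `mg`: `(-s).toNat = areaN 0 - areaN 1`, `(s - 1).toNat = areaN 1 - areaN 0 - 1` (truncated).  `areaN ≤ n²` (a sum of `n²` terms `≤ 1`), so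
`idN ≤ n²/4 + 1 ≤ n² + 1`.  `mvN` contains `u, x < pw N 3 (n²) = 3^(n²)` (hBND).
Hypotheses: hBND. -/
def StARN : Prop := ∀ (w : List (Fin 5)) (c u x : ℕ), c ≤ 1 →
  (!(cB c)) = cB (1 - c) ∧ ((AW w).mv (cB c) u x ↔ mvN (NN 16 w) (nW w) c u x) ∧
  ((AW w).mv (!(cB c)) u x ↔ mvN (NN 16 w) (nW w) (1 - c) u x) ∧
  (rv (AW w) (cB c) u x ↔ rvN (NN 16 w) (nW w) c u x) ∧ (ahead (AW w) (cB c) u ↔ ahN (NN 16 w) (nW w) c u) ∧
  mg (AW w) (cB c) u / 4 + 1 = idN (NN 16 w) (nW w) c u ∧ idN (NN 16 w) (nW w) c u ≤ nW w * nW w + 1 ∧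
  (mvN (NN 16 w) (nW w) c u x → u < 3 ^ (nW w * nW w) ∧ x < 3 ^ (nW w * nW w)) ∧
  ((AW w).s x = (AW w).s u ↔ areaN (NN 16 w) (nW w) 1 x + areaN (NN 16 w) (nW w) 0 u =
    areaN (NN 16 w) (nW w) 1 u + areaN (NN 16 w) (nW w) 0 x)

/-- TG1 (about 200 lines)
(Calls of the kind 1: `WN`.)  In all the modules `TG`: `N = NN 16 w`; the fields of `z` by hFLD; unfold `IniN`, `LenN`, `DelN`, `StpN`, `OutN` and reduce the tests on the field 0.
Proof.  `WN A H₀ r = Wst A H₀ (EN A H₀ r)` (cases on `r`, `rfl`).  Calls: valid (`OkF`: `zz .. 2 r c 0 0 u 0..0`; `zz .. 3 r (1-c) u u u (idN ..) 0..0` with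
`idN ≤ n²+1` (hARN); `zz .. 3 .. u (j-2) (j-2) ..` with `j - 2 < 3^(n²)`), `0` is valid with rank 0; ranks: `rkF w 2 ..`, `rkF w 3 ..` with `k ≤ n²+1` are smaller than
`rkF w 1 ..` (`2 + k (L+6) < 2 + (n²+2)(L+6)`).  Values of the calls (hFLD, `ValF`): `b01 (EN r (cB c) u)`, `b01 (Xk .. (cB (1-c)) (idN ..) u)` with history `VW w u u = insert u (HW w)` (ext), which is
`b01 (XIN .. (!cB c) u)` by hARN; `VW w u x = insert x (insert u (HW w))`.  If `u` is ahead: accumulator after `j` steps is `b01 (∃ i < j, Q i)` with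
`Q 0 = EN ..`, `Q 1 = ¬ XIN`, `Q (i+2) = c1 .. i ∧ ¬ XIN ..` (for a number `v = b01 p`: `v ≠ 0 ↔ p`, `v = 0 ↔ ¬ p`; if `c1` fails the step adds nothing); after
`3^(n²) + 2` steps this is `Wst` (`c1` says `rv`, `x ∉ HW`, `x ≠ u`; `rv` implies `x < 3^(n²)`).  If not ahead: one step, `b01 (XIN ..)`.  All values are `≤ 1 < N`; `LenN ≤ 3^(n²) + 2 < N`.
Hypotheses: hBND hFLD hARN. -/
def StTG1 : Prop := ∀ (w : List (Fin 5)) (r c a b u k m fl d s t x : ℕ), OkF w 1 r c a b u k m fl d s t x →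
  TagOK w (zz (NN 16 w) w 1 r c a b u k m fl d s t x)

/-- TG2 (about 130 lines)
(Calls of the kind 2: `EN`.)
Proof.  `r = 0`: no step, `EN .. 0` is false.  `r ≥ 1`: `EN A H₀ r (cB c) u` is `ext A H₀ (WN A H₀ (r-1)) (cB c) u`, that is `∃ x, c2 N w c u x ∧ ¬ WN (r-1) (!cB c) x` (hARN), `x < 3^(n²)`; the call
`zz .. 1 (r-1) (1-c) 0 0 x 0..0` is valid with smaller rank (`(r-1) A + 2 + (n²+2)(L+6) < r A + 1`, `A = (n²+2)(L+6)+2`).
Accumulator: `b01 (∃ i < j, ..)`.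
Hypotheses: hBND hFLD hARN. -/
def StTG2 : Prop := ∀ (w : List (Fin 5)) (r c a b u k m fl d s t x : ℕ), OkF w 2 r c a b u k m fl d s t x →
  TagOK w (zz (NN 16 w) w 2 r c a b u k m fl d s t x)

/-- TG3 (about 180 lines)
(Calls of the kind 3: `Xk`.)
Proof.  `k = 0`: no step, false.  `k = k' + 1`: `Xk (k'+1) u ↔ EN r (cB c) u ∨ Ess G u`, `G = GW w r c a b u k' 0`, `GW .. 1 = del G u` (`del`).  `Ess G u ↔ ∃ m ≤ 3^(n²), Mat G m ∧ ¬ Mat (del G u) m`: `G`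
is supported on numbers `< 3^(n²)` (it contains `rv`, hARN), so a matching has at most `3^(n²)` edges.  Steps: `j = 0`: `a = b01 (EN ..)`.  `j = 1 + 2 m`: value `b01 (Mat G m)` of the call
`zz .. 4 r c a b u k' m 0 0 0 0 0`; `j = 2 + 2 m`: `b01 (Mat (del G u) m)` (`fl = 1`).  Invariant after `1 + 2 m` steps: `a = b01 (EN ∨ ∃ m' < m, Mat G m' ∧ ¬ Mat (del G u) m')`, after `2 + 2 m` steps:
`a = 1` if this holds, otherwise `2` or `0` according to `Mat G m`.  `(j-1)/2`, `(j-1)%2`: `omega`.  Ranks: `2 + k (L+6) > 2 + (k-1)(L+6) + L + 4`, `> 1`.  Valid: `m ≤ 3^(n²)`, `k - 1 ≤ n²`.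
Hypotheses: hBND hFLD hARN. -/
def StTG3 : Prop := ∀ (w : List (Fin 5)) (r c a b u k m fl d s t x : ℕ), OkF w 3 r c a b u k m fl d s t x →
  TagOK w (zz (NN 16 w) w 3 r c a b u k m fl d s t x)

/-- TG4 (about 130 lines)
(Calls of the kind 4: `Mat`.)
Proof.  hCRI with `L = LL (nW w)`, `Nb = 3^(n²)` (`2 Nb ≤ 2^L`, `m ≤ Nb`, the graph `GW` is supported on `[0, Nb)²` by hARN): `Mat (GW ..) m` iff for some `x < Xb L` the number `trP (2^L) (aM ..) (L+1) (2^L) (2^L (2^L+2) + 2^L)` is not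
divisible by `xq L x`, that is iff the value of the call `zz .. 5 r c a b u k m fl (L+1) (2^L) (2^L (2^L+2) + 2^L) x` is not `0` (`Int.emod` by a positive number is nonnegative; `Int.dvd_iff_emod_eq_zero`).  The states are
`< (2^L+1)(2^L+2)`.  Rank: `2 + k Q + L + 4 > 4 + k Q + (L + 1)`.
Hypotheses: hBND hFLD hARN hCRI. -/
def StTG4 : Prop := ∀ (w : List (Fin 5)) (r c a b u k m fl d s t x : ℕ), OkF w 4 r c a b u k m fl d s t x →
  TagOK w (zz (NN 16 w) w 4 r c a b u k m fl d s t x)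

/-- TG5 (about 220 lines)
(Calls of the kind 5: powers of the transfer matrix.)
Proof.  `q = xq L x ≥ 1`, `q ≤ Qb L < PhN`.  (`d = 0`)  One step; `trP .. 0 s t = trE ..` (hTRC).  `padE G Nb m i j ↔ (i < Nb ∧ j < Nb ∧ G i j) ∨ padS Nb m i j`.  The call gives `y = b01 (G i j)` if `i = trI`, `j = trJ` are `< Nb` and the kind is `≥ 2` (otherwise
`y` is the value `0` of the call `0`; it is not used: kinds 0, 1, or the edge is not in the square).  `entN` is `trE .. % q`: kind 1: `1 % q`; kind 0: `0`; kind 2: `(-(v : ℤ)) % q = (q - v % q) % q` for the natural number `v = xx^wt` (or 0); kind 3: `v % q`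
(hWTN: `evN = xx^wt % q`).  `GW` for the call of the kind 6 has the same graph (the fields `r c a b u k fl`).  (`d ≥ 1`)  `2 Sd` steps: invariant after `2 i` steps: `a < q` and `a = (Σ_(e < i) trP (d-1) s e * trP (d-1) e t) % q` (as natural numbers, `Int.toNat` of `emod`); step `2 i`:
`a % Ph + Ph * (y1 % Ph)` with `y1 = (trP (d-1) s i % q).toNat < q ≤ Ph`; step `2 i + 1`: `(a + y1 * y2) % q`.  `OutN`: `a % Ph`.  `Int.emod_emod_of_dvd`, `Int.add_mul_emod` etc.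
Bounds: `a % Ph + Ph * (y % Ph) < Ph² ≤ N`; results of `% q` are `< q ≤ N`; `LenN = 2 Sd < N`.  Ranks: kind 6: `3 + k Q < 4 + k Q + 0`; kind 5 with `d - 1`.
Hypotheses: hBND hFLD hARN hWTN hTRC. -/
def StTG5 : Prop := ∀ (w : List (Fin 5)) (r c a b u k m fl d s t x : ℕ), OkF w 5 r c a b u k m fl d s t x →
  TagOK w (zz (NN 16 w) w 5 r c a b u k m fl d s t x)

/-- TG6 (about 150 lines)
(Calls of the kind 6: edges.)
Proof.  Three steps.  `Gr A EX V (cB c) X u s t` is `(s = u ∨ (s ∉ V ∧ ¬ EX (cB c) s)) ∧ A.s s = A.s u ∧ rv A (cB c) s t ∧ t ∉ V ∧ ¬ EX (!cB c) t ∧ (¬ ahead A (cB c) t → X t)`; with `fl = 1` in addition `s ≠ u`.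
`ini6` is the part without calls (`(s = u ∨ s ∉ V)`, hARN for the scores, `rvN`); step 0: `s = u ∨ ¬ EN r (cB c) s`; step 1: `¬ EN r (cB (1-c)) t`; step 2: `ahead ∨ Xk k t`.  The conjunction is the edge relation:
`(s = u ∨ s ∉ V) ∧ (s = u ∨ ¬ EX s)` iff `s = u ∨ (s ∉ V ∧ ¬ EX s)`.  Calls valid: `s, t < 3^(n²)` (last clause of `OkF`), `k ≤ n²`.  Ranks: `3 + k Q > 2 + k Q`, `> 1`.
Hypotheses: hBND hFLD hARN. -/
def StTG6 : Prop := ∀ (w : List (Fin 5)) (r c a b u k m fl d s t x : ℕ), OkF w 6 r c a b u k m fl d s t x →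
  TagOK w (zz (NN 16 w) w 6 r c a b u k m fl d s t x)

/-- TG7 (about 70 lines)
(Calls of the kinds 7 and 0.)
Proof.  Kind 7: one step, the call `zz .. 1 r c 0 0 u 0..0`, value `b01 (WN r (cB c) u)`, `cB 1 = true`, `cB 0 = false`.  Kind 0 (`z = 0`): field 0 of `0` is `0`: no step, value `b01 (0 = 1) = 0`.
Hypotheses: hBND hFLD. -/
def StTG7 : Prop := (∀ (w : List (Fin 5)) (r c a b u k m fl d s t x : ℕ), OkF w 7 r c a b u k m fl d s t x →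
  TagOK w (zz (NN 16 w) w 7 r c a b u k m fl d s t x)) ∧ ∀ w : List (Fin 5), TagOK w 0

/-! ## The functions are E2.  All tools: `Pool/Agent/Helper79/GS/Lib.lean`. -/

/-- EW (about 120 lines)
(Functions of the word.)
Proof.  `e_bmin`, `e_eq`, `e_lett`, `e_len`, `e_sub`, `e_mul`, `e_ite`, `e_sum`, `e_pw`, `e_all`, `e_ex` (bounded variable = entry 0 of the context; the other functions shifted by `e_sh`).
Hypotheses: none. -/
def StEW : Prop :=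
  E2 (α := Fin 5) (fun w _ => pos1 w) ∧ E2 (α := Fin 5) (fun w _ => nW w) ∧ E2 (α := Fin 5) (fun w _ => pos2 w) ∧
  E2 (α := Fin 5) (fun w _ => mW w) ∧ E2 (α := Fin 5) (fun w _ => plW w) ∧ E2 (α := Fin 5) (fun w _ => RW w) ∧
  (∀ J P : VF (Fin 5), E2 J → E2 P → E2 (fun w v => cntW w (J w v) (P w v))) ∧
  (∀ N : VF (Fin 5), E2 N → E2 (fun w v => b0W (N w v) w)) ∧
  (∀ U : VF (Fin 5), E2 U → E2P (fun w v => H0W w (U w v))) ∧
  (∀ A B X : VF (Fin 5), E2 A → E2 B → E2 X → E2P (fun w v => VN w (A w v) (B w v) (X w v)))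

/-- EB1 (about 120 lines)
(Adjacency and touching.)
Proof.  `adjN`: `e_or`, `e_and`, `e_eq`, `e_div`, `e_mod`.  `colN`: `e_ite`.  `tchN`: `e_all` with the bound `e_pw`, inside `e_imp`, `e_all`, `e_ex`, `e_dg` (the context grows by one entry with each quantifier; use
`e_sh` for the functions `N, n, u, v, x`).
Hypotheses: none. -/
def StEB1 : Prop :=
  (∀ n P Q : VF (Fin 5), E2 n → E2 P → E2 Q → E2P (fun w v => adjN (n w v) (P w v) (Q w v))) ∧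
  (∀ C : VF (Fin 5), E2 C → E2 (fun w v => colN (C w v))) ∧
  (∀ N n U V X : VF (Fin 5), E2 N → E2 n → E2 U → E2 V → E2 X →
    E2P (fun w v => tchN (N w v) (n w v) (U w v) (V w v) (X w v)))

/-- EB2 (about 150 lines)
(Placements and areas.)
Proof.  hEB1, `e_all`, `e_ex`, `e_ite`, `e_sum`, `e_pw`, `e_dg`.
Hypotheses: hEB1. -/
def StEB2 : Prop :=
  (∀ N n C U X : VF (Fin 5), E2 N → E2 n → E2 C → E2 U → E2 X →
    E2P (fun w v => clrN (N w v) (n w v) (C w v) (U w v) (X w v))) ∧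
  (∀ N n C U E X : VF (Fin 5), E2 N → E2 n → E2 C → E2 U → E2 E → E2 X →
    E2P (fun w v => playN (N w v) (n w v) (C w v) (U w v) (E w v) (X w v))) ∧
  (∀ N n C U X : VF (Fin 5), E2 N → E2 n → E2 C → E2 U → E2 X →
    E2P (fun w v => mvN (N w v) (n w v) (C w v) (U w v) (X w v)) ∧
    E2P (fun w v => rvN (N w v) (n w v) (C w v) (U w v) (X w v))) ∧
  (∀ N n C U : VF (Fin 5), E2 N → E2 n → E2 C → E2 U →
    E2 (fun w v => areaN (N w v) (n w v) (C w v) (U w v)) ∧ E2P (fun w v => ahN (N w v) (n w v) (C w v) (U w v)) ∧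
    E2 (fun w v => idN (N w v) (n w v) (C w v) (U w v)))

/-- EA (about 150 lines)
(Arithmetic.)
Proof.  `A ^ B % (Q + 1)`: `e_rec` with the recursion `ρ 0 = 1 % (Q+1)`, `ρ (y+1) = ρ y * A % (Q+1)`, bounded by `Q`.  `wtN`: `e_sum`, `e_mul`, `e_dg`, `e_pw`.  `trK`, `trI`, `trJ`: `e_ite`.  `padS`: `e_or`.
Hypotheses: none. -/
def StEA : Prop :=
  (∀ A B Q : VF (Fin 5), E2 A → E2 B → E2 Q → E2 (fun w v => A w v ^ B w v % (Q w v + 1))) ∧
  (∀ N L X I J : VF (Fin 5), E2 N → E2 L → E2 X → E2 I → E2 J →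
    E2 (fun w v => wtN (N w v) (L w v) (X w v) (I w v) (J w v)) ∧
    E2 (fun w v => evN (N w v) (L w v) (X w v) (I w v) (J w v))) ∧
  (∀ N L X : VF (Fin 5), E2 N → E2 L → E2 X →
    E2 (fun w v => QbN (N w v) (L w v)) ∧ E2 (fun w v => XbN (N w v) (L w v)) ∧
    E2 (fun w v => xqN (N w v) (L w v) (X w v)) ∧ E2 (fun w v => xxN (N w v) (L w v) (X w v))) ∧
  (∀ n S T : VF (Fin 5), E2 n → E2 S → E2 T →
    E2 (fun w v => trK (n w v) (S w v) (T w v)) ∧ E2 (fun w v => trI (n w v) (S w v)) ∧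
    E2 (fun w v => trJ (n w v) (S w v) (T w v))) ∧
  (∀ B M I J : VF (Fin 5), E2 B → E2 M → E2 I → E2 J → E2P (fun w v => padS (B w v) (M w v) (I w v) (J w v)))

/-- EF (about 150 lines)
(Fields.)
Proof.  `LL (nW w)`, `PhN`, `NbN`, `nmN`, `SdN`: `e_pw`, `e_powc`, hEW.  `zz`: `Nat.ofDigits B [x0, .., x12] = x0 + B (x1 + B (..))` (`simp [Nat.ofDigits]`/`Nat.ofDigits_cons`), `e_add`, `e_mul`.  `fi`: `e_dg`.  `c1`, `c2`: `e_and`, `e_not`, `e_ne`, hEB2,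
hEW.  `entN`: `e_ite`, hEA.  `b01 p`: `e_ite` (a characteristic function: `E2P p` itself, up to the decidability instance).
Hypotheses: hEW hEB2 hEA. -/
def StEF : Prop :=
  E2 (α := Fin 5) (fun w _ => LL (nW w)) ∧
  (∀ N : VF (Fin 5), E2 N → E2 (fun w v => PhN (N w v) w) ∧ E2 (fun w v => NbN (N w v) w) ∧
    E2 (fun w v => nmN (N w v) w) ∧ E2 (fun w v => SdN (N w v) w)) ∧
  (∀ N T r c a b u k m fl d s t x : VF (Fin 5), E2 N → E2 T → E2 r → E2 c → E2 a → E2 b → E2 u → E2 k → E2 m → E2 fl →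
    E2 d → E2 s → E2 t → E2 x → E2 (fun w v => zz (N w v) w (T w v) (r w v) (c w v) (a w v) (b w v) (u w v) (k w v) (m w v)
      (fl w v) (d w v) (s w v) (t w v) (x w v))) ∧
  (∀ N Z I : VF (Fin 5), E2 N → E2 Z → E2 I → E2 (fun w v => fi (N w v) w (Z w v) (I w v))) ∧
  (∀ N C U X : VF (Fin 5), E2 N → E2 C → E2 U → E2 X →
    E2P (fun w v => c1 (N w v) w (C w v) (U w v) (X w v)) ∧ E2P (fun w v => c2 (N w v) w (C w v) (U w v) (X w v))) ∧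
  (∀ N m s t x y : VF (Fin 5), E2 N → E2 m → E2 s → E2 t → E2 x → E2 y →
    E2 (fun w v => entN (N w v) w (m w v) (s w v) (t w v) (x w v) (y w v))) ∧
  (∀ p : List (Fin 5) → (ℕ → ℕ) → Prop, E2P p → E2 (fun w v => b01 (p w v)))

/-- EP1 (about 150 lines)
(The functions of the procedure, first part.)
Proof.  `e_ite`, hEF, hEA, hEB2, hEW; `ini6`, `Z0N`: `e_and`, `e_imp`, ..
Hypotheses: hEW hEB2 hEA hEF. -/
def StEP1 : Prop := ∀ N Z A : VF (Fin 5), E2 N → E2 Z → E2 A →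
  E2 (fun w v => IniN (N w v) w (Z w v)) ∧ E2 (fun w v => LenN (N w v) w (Z w v)) ∧
  E2 (fun w v => OutN (N w v) w (Z w v) (A w v)) ∧ E2 (fun w v => Z0N (N w v) w)

/-- EP2 (about 170 lines)
(The calls.)
Proof.  First `del1`, .., `del6` for E2 arguments, then the case distinction `DelN`.
Hypotheses: hEW hEB2 hEA hEF. -/
def StEP2 : Prop := ∀ N Z J : VF (Fin 5), E2 N → E2 Z → E2 J → E2 (fun w v => DelN (N w v) w (Z w v) (J w v))

/-- EP3 (about 170 lines)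
(The steps.)
Proof.  First `stp1`, .., `stp6` for E2 arguments, then the case distinction `StpN`.
Hypotheses: hEW hEB2 hEA hEF. -/
def StEP3 : Prop := ∀ N Z J A Y : VF (Fin 5), E2 N → E2 Z → E2 J → E2 A → E2 Y →
  E2 (fun w v => StpN (N w v) w (Z w v) (J w v) (A w v) (Y w v))

/-- PSP (about 120 lines)
(The language is in PSPACE.)
Proof.  hREC with `c = 16`, `ini w v = IniN (v 1) w (v 0)`, `len w v = LenN (v 1) w (v 0)`, `del w v = DelN (v 3) w (v 0) (v 1)`, `stp w v = StpN (v 4) w (v 0) (v 1) (v 2) (v 3)`, `out w v = OutN (v 2) w (v 0) (v 1)`, `z0 w v = Z0N (v 0) w`,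
`Ok = OkW`, `Val = ValW`, `rk = rkW`; E2 by hEP1, hEP2, hEP3 (`e_get`).  Every valid `z` is `0` (hTG7) or `zz ..` with `1 ≤ T ≤ 7` (hTG1 .. hTG7): `TagOK w z`; with hRKB this is the hypothesis of hREC (`scons` reduces by `rfl`).
The start: `OkF w 7 (RW w) (plW w) 0 0 (b0W N w) 0 ..`: `plW w ≤ 1`, `b0W N w < 3^(n²)` (digits `≤ 2`, `pw N 3 p = 3^p` by hBND; `Σ_(p<K) 2 * 3^p = 3^K - 1`).  The value (hFLD, `ValF`): `b01 (if plW w = 1 then WN .. true .. else ¬ WN .. false ..)`, which is the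
definition of `LG`.
Hypotheses: hREC hBND hFLD hRKB hTG1 hTG2 hTG3 hTG4 hTG5 hTG6 hTG7 hEP1 hEP2 hEP3. -/
def StPSP : Prop := LG ∈ PSPACE (Fin 5)

end Pool.Agent.Helper79.GS
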