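import Pool.Agent.Helper73.DC.St2
import Pool.Agent.Helper8.DC.M_TI
import Pool.Agent.Helper8.DC.M_FG1
import Pool.Agent.Helper8.DC.M_FG2
import Pool.Agent.Helper8.DC.M_FG3
import Pool.Agent.Helper8.DC.M_PD
import Pool.Agent.Helper8.DC.M_CB
import Pool.Agent.Helper8.DC.M_CS
import Pool.Agent.Helper51.DC.M_TD
import Pool.Agent.Helper51.DC.M_L1
import Pool.Agent.Helper69.DC.M_TM
import Pool.Agent.Helper69.DC.M_L3
import Pool.Agent.Helper69.DC.M_L4
import Pool.Agent.Helper69.DC.M_L5
import Pool.Agent.Helper78.DC.M_CR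
import Pool.Agent.Helper78.DC.M_TOP
import Pool.Agent.Helper64.DC.M_L2
import Pool.Agent.Helper64.DC.M_L6
import Pool.Agent.Helper64.DC.M_L7

/-!
# Project GS (MP_c2d095_lc): tools for the class E2 (proved)
-/

set_option autoImplicit false

namespace Pool.Agent.Helper79.GS

open Pool.Agent.Helper73.DC Finset

theorem tTM : StTM := Pool.Agent.Helper69.DC.mTM Pool.Agent.Helper8.DC.hTI Pool.Agent.Helper51.DC.mTD
theorem tPD : StPD := Pool.Agent.Helper8.DC.hPD Pool.Agent.Helper8.DC.hFG1 Pool.Agent.Helper8.DC.hFG2 Pool.Agent.Helper8.DC.hFG3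
theorem tTOP : StTOP := Pool.Agent.Helper78.DC.mTOP tTM tPD Pool.Agent.Helper8.DC.hCB Pool.Agent.Helper8.DC.hCS Pool.Agent.Helper78.DC.mCR
theorem tL1 : StL1 := Pool.Agent.Helper51.DC.mL1
theorem tL2 : StL2 := Pool.Agent.Helper64.DC.mL2 tL1
theorem tL3 : StL3 := Pool.Agent.Helper69.DC.mL3 tL1 tL2
theorem tL4 : StL4 := Pool.Agent.Helper69.DC.mL4 tL1 tL2 tL3
theorem tL5 : StL5 := Pool.Agent.Helper69.DC.mL5 tL1 tL2 tL3 tL4
theorem tL6 : StL6 := Pool.Agent.Helper64.DC.mL6 tL1 tL2
theorem tL7 : StL7 := Pool.Agent.Helper64.DC.mL7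

section
variable {α : Type} [Fintype α]

theorem e_get (i : ℕ) : E2 (α := α) (fun _ v => v i) := E2.get i
theorem e_con (n : ℕ) : E2 (α := α) (fun _ _ => n) := E2.const n
theorem e_len : E2 (α := α) (fun w _ => w.length) := E2.len
theorem e_add {F G : VF α} (hF : E2 F) (hG : E2 G) : E2 (fun w v => F w v + G w v) := hF.add hG
theorem e_mul {F G : VF α} (hF : E2 F) (hG : E2 G) : E2 (fun w v => F w v * G w v) := hF.mul hG
theorem e_powc {F : VF α} (hF : E2 F) (c : ℕ) : E2 (fun w v => F w v ^ c) := hF.powc c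
theorem e_sub {F G : VF α} (hF : E2 F) (hG : E2 G) : E2 (fun w v => F w v - G w v) := (tL1 F G hF hG).1
theorem e_min {F G : VF α} (hF : E2 F) (hG : E2 G) : E2 (fun w v => min (F w v) (G w v)) := (tL1 F G hF hG).2.1
theorem e_max {F G : VF α} (hF : E2 F) (hG : E2 G) : E2 (fun w v => max (F w v) (G w v)) := (tL1 F G hF hG).2.2
theorem e_le {F G : VF α} (hF : E2 F) (hG : E2 G) : E2P (fun w v => F w v ≤ G w v) := (tL2.1 F G hF hG).1
theorem e_lt {F G : VF α} (hF : E2 F) (hG : E2 G) : E2P (fun w v => F w v < G w v) := (tL2.1 F G hF hG).2.1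
theorem e_eq {F G : VF α} (hF : E2 F) (hG : E2 G) : E2P (fun w v => F w v = G w v) := (tL2.1 F G hF hG).2.2
theorem e_not {p : List α → (ℕ → ℕ) → Prop} (hp : E2P p) : E2P (fun w v => ¬ p w v) := (tL2.2.1 p p hp hp).1
theorem e_and {p q : List α → (ℕ → ℕ) → Prop} (hp : E2P p) (hq : E2P q) : E2P (fun w v => p w v ∧ q w v) :=
  (tL2.2.1 p q hp hq).2.1
theorem e_or {p q : List α → (ℕ → ℕ) → Prop} (hp : E2P p) (hq : E2P q) : E2P (fun w v => p w v ∨ q w v) :=
  (tL2.2.1 p q hp hq).2.2
theorem e_imp {p q : List α → (ℕ → ℕ) → Prop} (hp : E2P p) (hq : E2P q) : E2P (fun w v => p w v → q w v) := by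
  have h := e_or (e_not hp) hq
  have e : (fun w v => p w v → q w v) = (fun w v => ¬ p w v ∨ q w v) := by
    funext w v
    exact propext imp_iff_not_or
  rw [e]
  exact h
theorem e_iff {p q : List α → (ℕ → ℕ) → Prop} (hp : E2P p) (hq : E2P q) : E2P (fun w v => (p w v ↔ q w v)) := by
  have h := e_and (e_imp hp hq) (e_imp hq hp)
  have e : (fun w v => (p w v ↔ q w v)) = (fun w v => (p w v → q w v) ∧ (q w v → p w v)) := by
    funext w v
    exact propext iff_iff_implies_and_implies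
  rw [e]
  exact h
theorem e_ne {F G : VF α} (hF : E2 F) (hG : E2 G) : E2P (fun w v => F w v ≠ G w v) := e_not (e_eq hF hG)
theorem e_div {F G : VF α} (hF : E2 F) (hG : E2 G) : E2 (fun w v => F w v / G w v) := (tL4 F G hF hG).1
theorem e_mod {F G : VF α} (hF : E2 F) (hG : E2 G) : E2 (fun w v => F w v % G w v) := (tL4 F G hF hG).2
theorem e_pw {F G H : VF α} (hF : E2 F) (hG : E2 G) (hH : E2 H) : E2 (fun w v => pw (F w v) (G w v) (H w v)) :=
  (tL5 F G H F F hF hG hH hF hF).1
theorem e_dg {F G H : VF α} (hF : E2 F) (hG : E2 G) (hH : E2 H) : E2 (fun w v => dg (F w v) (G w v) (H w v)) :=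
  (tL5 F G H F F hF hG hH hF hF).2.1
theorem e_lett {F : VF α} (hF : E2 F) : E2 (fun w v => lett w (F w v)) := E2.letr F hF

open scoped Classical in
theorem e_ite {p : List α → (ℕ → ℕ) → Prop} {F G : VF α} (hp : E2P p) (hF : E2 F) (hG : E2 G) :
    E2 (fun w v => if p w v then F w v else G w v) := tL2.2.2 p F G hp hF hG

theorem e_true : E2P (α := α) (fun _ _ => True) := by
  have h := e_eq (α := α) (e_con 0) (e_con 0)
  have e : (fun (_ : List α) (_ : ℕ → ℕ) => True) = (fun _ _ => (0 : ℕ) = 0) := by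
    funext w v
    simp
  rw [e]
  exact h
theorem e_false : E2P (α := α) (fun _ _ => False) := by
  have h := e_not (e_true (α := α))
  have e : (fun (_ : List α) (_ : ℕ → ℕ) => False) = (fun _ _ => ¬ True) := by
    funext w v
    simp
  rw [e]
  exact h

/-- bounded sums; the bound variable is entry 0 of the context in the hypothesis -/
theorem e_sum {T : List α → ℕ → (ℕ → ℕ) → ℕ} {H : VF α} (hT : E2 (fun w v => T w (v 0) (fun i => v (i + 1))))
    (hH : E2 H) : E2 (fun w v => ∑ i ∈ range (H w v), T w i v) :=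
  tL3.1 (fun w v => T w (v 0) (fun i => v (i + 1))) H hT hH
theorem e_all {p : List α → ℕ → (ℕ → ℕ) → Prop} {H : VF α} (hp : E2P (fun w v => p w (v 0) (fun i => v (i + 1))))
    (hH : E2 H) : E2P (fun w v => ∀ i < H w v, p w i v) :=
  (tL3.2 (fun w v => p w (v 0) (fun i => v (i + 1))) H hp hH).1
theorem e_ex {p : List α → ℕ → (ℕ → ℕ) → Prop} {H : VF α} (hp : E2P (fun w v => p w (v 0) (fun i => v (i + 1))))
    (hH : E2 H) : E2P (fun w v => ∃ i < H w v, p w i v) :=
  (tL3.2 (fun w v => p w (v 0) (fun i => v (i + 1))) H hp hH).2.1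
theorem e_bmin {p : List α → ℕ → (ℕ → ℕ) → Prop} {H : VF α} (hp : E2P (fun w v => p w (v 0) (fun i => v (i + 1))))
    (hH : E2 H) : E2 (fun w v => bmin (H w v) (fun i => p w i v)) :=
  (tL3.2 (fun w v => p w (v 0) (fun i => v (i + 1))) H hp hH).2.2

/-- shift of the context (needed under a bounded sum or quantifier) -/
theorem e_sh {F : VF α} (hF : E2 F) : E2 (fun w v => F w (fun i => v (i + 1))) := hF.sh1
theorem e_shP {p : List α → (ℕ → ℕ) → Prop} (hp : E2P p) : E2P (fun w v => p w (fun i => v (i + 1))) :=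
  E2.rename (F := fun w v => @ite ℕ (p w v) (Classical.propDecidable _) 1 0) hp (fun i => i + 1)

/-- substitution in the context -/
theorem e_subst {F : VF α} (hF : E2 F) {σ : ℕ → VF α} (hσ : ∀ i, E2 (σ i)) :
    E2 (fun w v => F w (fun i => σ i w v)) := hF.subst σ hσ
theorem e_substP {p : List α → (ℕ → ℕ) → Prop} (hp : E2P p) {σ : ℕ → VF α} (hσ : ∀ i, E2 (σ i)) :
    E2P (fun w v => p w (fun i => σ i w v)) :=
  E2.subst (F := fun w v => @ite ℕ (p w v) (Classical.propDecidable _) 1 0) hp σ hσ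

/-- bounded recursion: `Nat.rec` with all values at most `B`; in the step function the counter is entry 0 and the value entry 1
of the context -/
theorem e_rec {F H B : VF α} {G : List α → ℕ → ℕ → (ℕ → ℕ) → ℕ} (hF : E2 F)
    (hG : E2 (fun w v => G w (v 0) (v 1) (fun i => v (i + 2)))) (hH : E2 H) (hB : E2 B)
    (hb : ∀ w v y, y ≤ H w v → (Nat.rec (F w v) (fun y r => G w y r v) y : ℕ) ≤ B w v) :
    E2 (fun w v => (Nat.rec (F w v) (fun y r => G w y r v) (H w v) : ℕ)) := by
  have key : ∀ w v y, prec F (fun w v => G w (v 0) (v 1) (fun i => v (i + 2))) w v y =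
      (Nat.rec (F w v) (fun y r => G w y r v) y : ℕ) := by
    intro w v y
    induction y with
    | zero => rfl
    | succ y ih =>
      change G w y (prec F (fun w v => G w (v 0) (v 1) (fun i => v (i + 2))) w v y) v = _
      rw [ih]
  have h := E2.brec hF hG hH hB (fun w v y hy => by rw [key]; exact hb w v y hy)
  have e : (fun w v => prec F (fun w v => G w (v 0) (v 1) (fun i => v (i + 2))) w v (H w v)) =
      fun w v => (Nat.rec (F w v) (fun y r => G w y r v) (H w v) : ℕ) := by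
    funext w v
    exact key w v _
  rw [e] at h
  exact h

end

end Pool.Agent.Helper79.GS
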