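import Pool.Agent.Helper10.GS.M_LVL
import Pool.Agent.Helper26.GS.M_XLC
import Pool.Agent.Helper95.GS.M_AUG
import Pool.Agent.Helper53.GS.M_COL
import Pool.Agent.Helper27.GS.M_STB
import Pool.Agent.Helper89.GS.M_GRD
import Pool.Agent.Helper34.GS.M_GEO
import Pool.Agent.Helper80.GS.M_BEH
import Pool.Agent.Helper94.GS.M_AHD
import Pool.Agent.Helper40.GS.M_LOC
import Pool.Agent.Helper18.GS.M_WNM
import Pool.Agent.Helper76.GS.M_TRN
import Pool.Agent.Helper6.GS.M_MON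
import Pool.Agent.Helper97.GS.M_BMW
import Pool.Agent.Helper16.GS.M_KRV
import Pool.Agent.Helper72.GS.M_KSC
import Pool.Agent.Helper62.GS.M_GSC
import Pool.Agent.Helper60.GS.M_ONE
import Pool.Agent.Helper7.GS.M_CIR
import Pool.Agent.Helper2.GS.M_WK1
import Pool.Agent.Helper5.GS.M_CNT
import Pool.Agent.Helper42.GS.M_MDL
import Pool.Agent.Helper58.GS.M_NZB
import Pool.Agent.Helper70.GS.M_SED
import Pool.Agent.Helper58.GS.M_UNQ
import Pool.Agent.Helper39.GS.M_RND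
import Pool.Agent.Helper81.GS.M_ISO
import Pool.Agent.Helper9.GS.M_DNZ
import Pool.Agent.Helper44.GS.M_PAD
import Pool.Agent.Helper33.GS.M_SCH
import Pool.Agent.Helper29.GS.M_TRF
import Pool.Agent.Helper14.GS.M_TRQ
import Pool.Agent.Helper64.GS.M_CRI
import Pool.Agent.Helper30.GS.M_SPM
import Pool.Agent.Helper51.GS.M_STK
import Pool.Agent.Helper87.GS.M_SPC
import Pool.Agent.Helper41.GS.M_REC
import Pool.Agent.Helper60.GS.M_BND
import Pool.Agent.Helper81.GS.M_FLD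
import Pool.Agent.Helper22.GS.M_RKB
import Pool.Agent.Helper33.GS.M_WTN
import Pool.Agent.Helper58.GS.M_TRC
import Pool.Agent.Helper38.GS.M_ARN
import Pool.Agent.Helper76.GS.M_TG1
import Pool.Agent.Helper41.GS.M_TG2
import Pool.Agent.Helper54.GS.M_TG3
import Pool.Agent.Helper57.GS.M_TG4
import Pool.Agent.Helper19.GS.M_TG5
import Pool.Agent.Helper2.GS.M_TG6
import Pool.Agent.Helper8.GS.M_TG7
import Pool.Agent.Helper99.GS.M_EW
import Pool.Agent.Helper97.GS.M_EB1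
import Pool.Agent.Helper29.GS.M_EB2
import Pool.Agent.Helper26.GS.M_EA
import Pool.Agent.Helper28.GS.M_EF
import Pool.Agent.Helper42.GS.M_EP1
import Pool.Agent.Helper51.GS.M_EP2
import Pool.Agent.Helper89.GS.M_EP3
import Pool.Agent.Helper98.GS.M_PSP
import Pool.Agent.Helper31.GS.M_COD
import Pool.Agent.Helper70.GS.M_TCH
import Pool.Agent.Helper39.GS.M_PLY
import Pool.Agent.Helper87.GS.M_ARE
import Pool.Agent.Helper64.GS.M_ENC
import Pool.Agent.Helper31.GS.M_FIN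
import Pool.Agent.Helper82.GS.M_RES

/-!
# Project GS (MP_c2d095_lc): all modules
-/

set_option autoImplicit false

namespace Pool.Agent.Helper79.GS

theorem gLVL : StLVL := Pool.Agent.Helper10.GS.hLVL
theorem gXLC : StXLC := Pool.Agent.Helper26.GS.hXLC gLVL
theorem gAUG : StAUG := Pool.Agent.Helper95.GS.hAUG
theorem gCOL : StCOL := Pool.Agent.Helper53.GS.hCOL gAUG
theorem gSTB : StSTB := Pool.Agent.Helper27.GS.hSTB gLVL gXLC gCOL
theorem gGRD : StGRD := Pool.Agent.Helper89.GS.hGRD gLVL gXLC gSTB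
theorem gGEO : StGEO := Pool.Agent.Helper34.GS.hGEO
theorem gBEH : StBEH := Pool.Agent.Helper80.GS.hBEH gLVL gXLC gGEO gGRD
theorem gAHD : StAHD := Pool.Agent.Helper94.GS.hAHD gBEH
theorem gLOC : StLOC := Pool.Agent.Helper40.GS.hLOC
theorem gWNM : StWNM := Pool.Agent.Helper18.GS.hWNM gLOC gBEH gAHD
theorem gTRN : StTRN := Pool.Agent.Helper76.GS.hTRN
theorem gMON : StMON := Pool.Agent.Helper6.GS.hMON
theorem gBMW : StBMW := Pool.Agent.Helper97.GS.hBMW
theorem gKRV : StKRV := Pool.Agent.Helper16.GS.hKRV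
theorem gKSC : StKSC := Pool.Agent.Helper72.GS.hKSC
theorem gGSC : StGSC := Pool.Agent.Helper62.GS.hGSC gKRV gKSC
theorem gONE : StONE := Pool.Agent.Helper60.GS.hONE
theorem gCIR : StCIR := Pool.Agent.Helper7.GS.hCIR
theorem gWK1 : StWK1 := Pool.Agent.Helper2.GS.hWK1
theorem gCNT : StCNT := Pool.Agent.Helper5.GS.hCNT gWK1
theorem gMDL : StMDL := Pool.Agent.Helper42.GS.hMDL
theorem gNZB : StNZB := Pool.Agent.Helper58.GS.hNZB
theorem gSED : StSED := Pool.Agent.Helper70.GS.hSED gMDL gNZB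
theorem gUNQ : StUNQ := Pool.Agent.Helper58.GS.hUNQ gWK1
theorem gRND : StRND := Pool.Agent.Helper39.GS.hRND gCIR gWK1 gCNT gSED
theorem gISO : StISO := Pool.Agent.Helper81.GS.hISO gRND gUNQ
theorem gDNZ : StDNZ := Pool.Agent.Helper9.GS.hDNZ gISO
theorem gPAD : StPAD := Pool.Agent.Helper44.GS.hPAD
theorem gSCH : StSCH := Pool.Agent.Helper33.GS.hSCH
theorem gTRF : StTRF := Pool.Agent.Helper29.GS.hTRF gSCH
theorem gTRQ : StTRQ := Pool.Agent.Helper14.GS.hTRQ gTRF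
theorem gCRI : StCRI := Pool.Agent.Helper64.GS.hCRI gPAD gDNZ gTRQ
theorem gSPM : StSPM := Pool.Agent.Helper30.GS.hSPM
theorem gSTK : StSTK := Pool.Agent.Helper51.GS.hSTK
theorem gSPC : StSPC := Pool.Agent.Helper87.GS.hSPC gSTK gSPM
theorem gREC : StREC := Pool.Agent.Helper41.GS.hREC gSPC
theorem gBND : StBND := Pool.Agent.Helper60.GS.hBND
theorem gFLD : StFLD := Pool.Agent.Helper81.GS.hFLD gBND
theorem gRKB : StRKB := Pool.Agent.Helper22.GS.hRKB gBND gFLD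
theorem gWTN : StWTN := Pool.Agent.Helper33.GS.hWTN gBND
theorem gTRC : StTRC := Pool.Agent.Helper58.GS.hTRC
theorem gARN : StARN := Pool.Agent.Helper38.GS.hARN gBND
theorem gTG1 : StTG1 := Pool.Agent.Helper76.GS.hTG1 gBND gFLD gARN
theorem gTG2 : StTG2 := Pool.Agent.Helper41.GS.hTG2 gBND gFLD gARN
theorem gTG3 : StTG3 := Pool.Agent.Helper54.GS.hTG3 gBND gFLD gARN
theorem gTG4 : StTG4 := Pool.Agent.Helper57.GS.hTG4 gBND gFLD gARN gCRI
theorem gTG5 : StTG5 := Pool.Agent.Helper19.GS.hTG5 gBND gFLD gARN gWTN gTRC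
theorem gTG6 : StTG6 := Pool.Agent.Helper2.GS.hTG6 gBND gFLD gARN
theorem gTG7 : StTG7 := Pool.Agent.Helper8.GS.hTG7 gBND gFLD
theorem gEW : StEW := Pool.Agent.Helper99.GS.hEW
theorem gEB1 : StEB1 := Pool.Agent.Helper97.GS.hEB1
theorem gEB2 : StEB2 := Pool.Agent.Helper29.GS.hEB2 gEB1
theorem gEA : StEA := Pool.Agent.Helper26.GS.hEA
theorem gEF : StEF := Pool.Agent.Helper28.GS.hEF gEW gEB2 gEA
theorem gEP1 : StEP1 := Pool.Agent.Helper42.GS.hEP1 gEW gEB2 gEA gEF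
theorem gEP2 : StEP2 := Pool.Agent.Helper51.GS.hEP2 gEW gEB2 gEA gEF
theorem gEP3 : StEP3 := Pool.Agent.Helper89.GS.hEP3 gEW gEB2 gEA gEF
theorem gPSP : StPSP := Pool.Agent.Helper98.GS.hPSP gREC gBND gFLD gRKB gTG1 gTG2 gTG3 gTG4 gTG5 gTG6 gTG7 gEP1 gEP2 gEP3
theorem gCOD : StCOD := Pool.Agent.Helper31.GS.hCOD
theorem gTCH : StTCH := Pool.Agent.Helper70.GS.hTCH gCOD
theorem gPLY : StPLY := Pool.Agent.Helper39.GS.hPLY gCOD gTCH
theorem gARE : StARE := Pool.Agent.Helper87.GS.hARE gCOD gTCH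
theorem gENC : StENC := Pool.Agent.Helper64.GS.hENC gCOD
theorem gFIN : StFIN := Pool.Agent.Helper31.GS.hFIN gBND gENC gCOD gPLY gARE gTRN gGSC gWNM gBMW
theorem gRES : StRES := Pool.Agent.Helper82.GS.hRES gPSP gFIN gONE gMON

end Pool.Agent.Helper79.GS
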