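import Pool.Agent.Helper19.SK.Defs

/-!
# Project GS (MP_c2d095_lc): Go under positional superko when all cycles are kos.  Definitions 1: games

THEOREM of the project.  Let `GO-SK(m)` be the problem GO-SK (area counting, arbitrary set of board positions which
have already occurred) for the positions from which no sequence of placements contains more than `m` placements which
the opponent cannot take back at once.  `GO-SK(m)`, with `m` written in unary, is in PSPACE.  In particular GO-SK is in
PSPACE for the positions from which no play can remove two stones at a time (so all cycles are ko cycles).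

Rules of Go: `Pool/Agent/Helper19/SK/Defs.lean` (`Pos`, `play`).
-/

set_option autoImplicit false

namespace Pool.Agent.Helper79.GS

open Pool.Agent.Helper19.SK

/-! ## Games with superko -/

/-- A board game: `mv c b b'`: a placement of the player `c` (`true` is Black) leads from the board `b` to the board `b'`;
`s b`: score of Black minus score of White if the game ends with the board `b`. -/
structure Arena (P : Type) where
  mv : Bool → P → P → Prop
  s : P → ℤ

/-- `BWin A H ps c b`: Black has a winning strategy (final score `> 0`) when the current board is `b`, the player `c` is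
to move, the boards of `H` have occurred, and `ps` says that the last move was a pass.  Passing is always allowed, two
consecutive passes end the game, a placement must not produce a board which has occurred. -/
inductive BWin {P : Type} (A : Arena P) : Set P → Bool → Bool → P → Prop
  | stop (H : Set P) (b : P) : 0 < A.s b → BWin A H true true b
  | pass (H : Set P) (b : P) : BWin A H true false b → BWin A H false true b
  | move (H : Set P) (ps : Bool) (b b' : P) : A.mv true b b' → b' ∉ H → BWin A (insert b' H) false false b' →
      BWin A H ps true b
  | white (H : Set P) (ps : Bool) (b : P) : (ps = true → 0 < A.s b) → (ps = false → BWin A H true true b) →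
      (∀ b', A.mv false b b' → b' ∉ H → BWin A (insert b' H) false true b') → BWin A H ps false b

/-- The player `c` wins if the game ends with the board `b`. -/
def ahead {P : Type} (A : Arena P) (c : Bool) (b : P) : Prop := if c = true then 0 < A.s b else ¬ 0 < A.s b

/-- The player `c`, to move in the board `b`, wins (the same game, in a form which is symmetric in the players). -/
def MW {P : Type} [Finite P] (A : Arena P) (H : Set P) (ps c : Bool) (b : P) : Prop :=
  (ps = true ∧ ahead A c b) ∨ (∃ _ : ps = false, ¬ MW A H true (!c) b) ∨
    ∃ b', A.mv c b b' ∧ ∃ _ : b' ∉ H, ¬ MW A (insert b' H) false (!c) b'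
termination_by ((Hᶜ).ncard, cond ps 0 1)
decreasing_by
  · simp_all [Prod.lex_def]
  · refine Prod.Lex.left _ _ (Set.ncard_lt_ncard ?_ (Set.toFinite _))
    refine ⟨fun x hx hxH => hx (Or.inr hxH), fun hcon => ?_⟩
    exact hcon (show b' ∈ Hᶜ from by assumption) (Or.inl rfl)

/-- Reversible placements (kos): the opponent can take the placement back at once. -/
def rv {P : Type} (A : Arena P) (c : Bool) (b b' : P) : Prop := A.mv c b b' ∧ A.mv (!c) b' b

/-- `Rch A b k x`: some sequence of placements (of the two players in any order) from `b` to `x` contains exactly `k`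
placements which are not reversible. -/
inductive Rch {P : Type} (A : Arena P) (b : P) : ℕ → P → Prop
  | refl : Rch A b 0 b
  | rev (k : ℕ) (c : Bool) (x y : P) : Rch A b k x → A.mv c x y → A.mv (!c) y x → Rch A b k y
  | irr (k : ℕ) (c : Bool) (x y : P) : Rch A b k x → A.mv c x y → ¬ A.mv (!c) y x → Rch A b (k + 1) y

/-- From `b` no sequence of placements contains more than `r` placements which are not reversible. -/
def Bd {P : Type} (A : Arena P) (r : ℕ) (b : P) : Prop := ∀ k x, Rch A b k x → k ≤ r

/-- Scores: a reversible placement of Black changes the score by `4`. -/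
def Sc {P : Type} (A : Arena P) : Prop := ∀ b b', rv A true b b' → A.s b' = A.s b + 4

/-! ## The solution -/

/-- The relation `E` has a matching of size `m`. -/
def Mat {P : Type} (E : P → P → Prop) (m : ℕ) : Prop :=
  ∃ M : Finset (P × P), M.card = m ∧ (∀ e ∈ M, E e.1 e.2) ∧ Set.InjOn Prod.fst (M : Set (P × P)) ∧
    Set.InjOn Prod.snd (M : Set (P × P))

/-- `E` without the left vertex `u`. -/
def del {P : Type} (E : P → P → Prop) (u : P) (y x : P) : Prop := y ≠ u ∧ E y x

/-- `E` without the left vertex `u` and the right vertex `v`. -/
def del2 {P : Type} (E : P → P → Prop) (u v : P) (y x : P) : Prop := y ≠ u ∧ x ≠ v ∧ E y x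

/-- Every maximum matching covers the left vertex `u`. -/
def Ess {P : Type} (E : P → P → Prop) (u : P) : Prop := ∃ m, Mat E m ∧ ¬ Mat (del E u) m

/-- Distance of the score from the threshold, for a player who is not ahead. -/
def mg {P : Type} (A : Arena P) (c : Bool) (b : P) : ℕ := if c = true then (-A.s b).toNat else (A.s b - 1).toNat

/-- The graph of the player `c`, who is behind and to move in `u`; `EX c y`: the player `c`, to move in `y`, has a winning
placement which is not reversible; `V`: boards which have occurred; `X x`: `c` wins when he is to move in `x`. -/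
def Gr {P : Type} (A : Arena P) (EX : Bool → P → Prop) (V : Set P) (c : Bool) (X : P → Prop) (u : P) (y x : P) : Prop :=
  (y = u ∨ (y ∉ V ∧ ¬ EX c y)) ∧ A.s y = A.s u ∧ rv A c y x ∧ x ∉ V ∧ ¬ EX (!c) x ∧ (¬ ahead A c x → X x)

/-- The player `c`, behind and to move in `u`, wins (recursion over the distance from the threshold). -/
def Xk {P : Type} (A : Arena P) (EX : Bool → P → Prop) (V : Set P) (c : Bool) : ℕ → P → Prop
  | 0, _ => False
  | k + 1, u => EX c u ∨ Ess (Gr A EX V c (Xk A EX V c k) u) u

/-- The same with the right number of steps of the recursion. -/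
def XIN {P : Type} (A : Arena P) (EX : Bool → P → Prop) (V : Set P) (c : Bool) (u : P) : Prop :=
  Xk A EX V c (mg A c u / 4 + 1) u

open Classical in
/-- The player `c`, to move in the board `b`, wins, when the boards of `H₀` and `b` have occurred. -/
def Wst {P : Type} (A : Arena P) (H₀ : Set P) (EX : Bool → P → Prop) (c : Bool) (b : P) : Prop :=
  if ahead A c b then
    EX c b ∨ ¬ XIN A EX (insert b H₀) (!c) b ∨
      ∃ w, rv A c b w ∧ w ∉ insert b H₀ ∧ ¬ XIN A EX (insert w (insert b H₀)) (!c) w
  else XIN A EX (insert b H₀) c b

/-- A winning placement which is not reversible. -/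
def ext {P : Type} (A : Arena P) (H₀ : Set P) (W : Bool → P → Prop) (c : Bool) (u : P) : Prop :=
  ∃ b', A.mv c u b' ∧ ¬ A.mv (!c) b' u ∧ b' ∉ H₀ ∧ ¬ W (!c) b'

/-- The value of the game if at most `r` placements are not reversible: the player `c`, to move in `b`, wins. -/
def WN {P : Type} (A : Arena P) (H₀ : Set P) : ℕ → Bool → P → Prop
  | 0 => Wst A H₀ (fun _ _ => False)
  | r + 1 => Wst A H₀ (ext A H₀ (WN A H₀ r))

/-- The corresponding winning placements which are not reversible. -/
def EN {P : Type} (A : Arena P) (H₀ : Set P) : ℕ → Bool → P → Prop
  | 0 => fun _ _ => False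
  | r + 1 => ext A H₀ (WN A H₀ r)

/-! ## Go on the grid, area counting -/

/-- The `n × n` grid. -/
def grid (n : ℕ) : SimpleGraph (Fin n × Fin n) where
  Adj a b := (a.1 = b.1 ∧ (a.2.val + 1 = b.2.val ∨ b.2.val + 1 = a.2.val)) ∨
    (a.2 = b.2 ∧ (a.1.val + 1 = b.1.val ∨ b.1.val + 1 = a.1.val))
  symm := ⟨fun a b h => by
    rcases h with ⟨h1, h2⟩ | ⟨h1, h2⟩
    · exact Or.inl ⟨h1.symm, h2.symm⟩
    · exact Or.inr ⟨h1.symm, h2.symm⟩⟩
  loopless := ⟨fun a h => by
    rcases h with ⟨_, h2 | h2⟩ | ⟨_, h2 | h2⟩ <;> omega⟩

/-- The empty point `v` is enclosed by the colour `c` only: its empty region is adjacent to a stone of the colour `c` and to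
no stone of the other colour. -/
def Encl {V : Type} (G : SimpleGraph V) (P : Pos V) (c : Bool) (v : V) : Prop :=
  P v = none ∧ (∃ w u, Chain G P v w ∧ G.Adj w u ∧ P u = some c) ∧
    ∀ w u, Chain G P v w → G.Adj w u → P u ≠ some (!c)

/-- Area of the colour `c`: stones and empty points enclosed by this colour only. -/
noncomputable def area {V : Type} (G : SimpleGraph V) (P : Pos V) (c : Bool) : ℕ :=
  ({v | P v = some c ∨ Encl G P c v} : Set V).ncard

/-- Go on the graph `G` as a board game (a placement which does not change the board is never legal under superko). -/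
noncomputable def goArena {V : Type} (G : SimpleGraph V) : Arena (Pos V) where
  mv c P Q := ∃ e, P e = none ∧ Q = play G P c e ∧ Q ≠ P
  s P := (area G P true : ℤ) - (area G P false : ℤ)

/-- No play from `P` removes two stones at a time. -/
def OneStone {V : Type} (G : SimpleGraph V) (P : Pos V) : Prop :=
  ∀ k Q, Rch (goArena G) P k Q → ∀ c e, Q e = none →
    ({v | put Q e (some c) v ≠ none ∧ play G Q c e v = none} : Set V).ncard ≤ 1

end Pool.Agent.Helper79.GS
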