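import Pool.Agent.Helper79.GS.Defs

/-!
# Project GS (MP_c2d095_lc).  Definitions 2: bipartite matching in small space

Isolating weights of Fenner, Gurjar and Thierauf; the determinant as one entry of a power of a matrix.
Size: `n = 2 ^ L`.
-/

set_option autoImplicit false

namespace Pool.Agent.Helper79.GS

/-- The unit vector of the edge `(i, j)`. -/
def un {n : ℕ} (i j : Fin n) : Fin n → Fin n → ℤ := fun a b => if a = i ∧ b = j then 1 else 0

/-- One lazy step in the bipartite graph `E` (rows `inl i`, columns `inr j`) with its vector. -/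
inductive Stp {n : ℕ} (E : Fin n → Fin n → Prop) : Fin n ⊕ Fin n → Fin n ⊕ Fin n → (Fin n → Fin n → ℤ) → Prop
  | stay (a : Fin n ⊕ Fin n) : Stp E a a 0
  | fw (i j : Fin n) : E i j → Stp E (Sum.inl i) (Sum.inr j) (un i j)
  | bw (i j : Fin n) : E i j → Stp E (Sum.inr j) (Sum.inl i) (-un i j)

/-- Lazy walks with `q` steps and their vectors (signed number of passages through the edges). -/
inductive Wk {n : ℕ} (E : Fin n → Fin n → Prop) : ℕ → Fin n ⊕ Fin n → Fin n ⊕ Fin n → (Fin n → Fin n → ℤ) → Prop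
  | nil (a : Fin n ⊕ Fin n) : Wk E 0 a a 0
  | cons (q : ℕ) (a b c : Fin n ⊕ Fin n) (z z' : Fin n → Fin n → ℤ) : Wk E q a b z → Stp E b c z' →
      Wk E (q + 1) a c (z + z')

/-- Closed lazy walks with `2 q` steps have vector zero. -/
def NoCyc {n : ℕ} (E : Fin n → Fin n → Prop) (q : ℕ) : Prop := ∀ a z, Wk E (2 * q) a a z → z = 0

/-- Perfect matchings of `E`. -/
def PMt {n : ℕ} (E : Fin n → Fin n → Prop) (σ : Equiv.Perm (Fin n)) : Prop := ∀ a, E a (σ a)

/-- Weight of a perfect matching. -/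
def wsum {n : ℕ} (w : Fin n → Fin n → ℕ) (σ : Equiv.Perm (Fin n)) : ℕ := ∑ a, w a (σ a)

/-- The elementary weights: `(8 n)^(number of the edge) mod t`. -/
def we (L t i j : ℕ) : ℕ := (2 ^ (L + 3)) ^ (i * 2 ^ L + j) % t

/-- The combined weight of the edge `(i, j)` for the moduli `t 0, .., t (L - 1)`. -/
def wt (L : ℕ) (t : ℕ → ℕ) (i j : ℕ) : ℕ :=
  ∑ r ∈ Finset.range L, we L (t r) i j * (2 ^ (8 * L + 8)) ^ (L - 1 - r)

/-- `E` on `[0, Nb)²` extended to a graph which has a perfect matching iff `E` has a matching of size `m`. -/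
def padE (E : ℕ → ℕ → Prop) (Nb m i j : ℕ) : Prop :=
  (i < Nb ∧ j < Nb ∧ E i j) ∨ (i < Nb ∧ Nb ≤ j ∧ j < 2 * Nb - m) ∨ (Nb ≤ i ∧ i < 2 * Nb - m ∧ j < Nb) ∨
    (2 * Nb - m ≤ i ∧ j = i)

/-- The transfer matrix.  The number `s = h * (n + 2) + u` with `h ≤ n`, `u ≤ n + 1` is the state: head `h`, and `u < n`: in a
closed walk with smallest vertex `h`, at the vertex `u > h`; `u = n`: before the choice of a closed walk with head `h`;
`u = n + 1`: the closed walk with head `h` is finished. -/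
def trE (n : ℕ) (a : ℕ → ℕ → ℤ) (s s' : ℕ) : ℤ :=
  if s % (n + 2) = n ∧ s / (n + 2) < n then
    if s' / (n + 2) = s / (n + 2) + 1 ∧ s' % (n + 2) = n then 1
    else if s' / (n + 2) = s / (n + 2) ∧ s / (n + 2) < s' % (n + 2) ∧ s' % (n + 2) < n then
      -a (s / (n + 2)) (s' % (n + 2))
    else if s' / (n + 2) = s / (n + 2) ∧ s' % (n + 2) = n + 1 then -a (s / (n + 2)) (s / (n + 2))
    else 0
  else if s % (n + 2) < n ∧ s / (n + 2) < s % (n + 2) then
    if s' / (n + 2) = s / (n + 2) ∧ s / (n + 2) < s' % (n + 2) ∧ s' % (n + 2) < n then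
      a (s % (n + 2)) (s' % (n + 2))
    else if s' / (n + 2) = s / (n + 2) ∧ s' % (n + 2) = n + 1 then a (s % (n + 2)) (s / (n + 2))
    else 0
  else if s % (n + 2) = n + 1 ∧ s / (n + 2) < n then
    if s' / (n + 2) = s / (n + 2) + 1 ∧ s' % (n + 2) = n then 1 else 0
  else 0

/-- Entries of the `2 ^ d`-th power of the transfer matrix. -/
def trP (n : ℕ) (a : ℕ → ℕ → ℤ) : ℕ → ℕ → ℕ → ℤ
  | 0, s, s' => trE n a s s'
  | d + 1, s, s' => ∑ t ∈ Finset.range ((n + 1) * (n + 2)), trP n a d s t * trP n a d t s'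

/-- Bound for the moduli and the arguments. -/
def Qb (L : ℕ) : ℕ := 2 ^ (8 * L ^ 2 + 9 * L + 2)

/-- Number of the parameters `ξ`. -/
def Xb (L : ℕ) : ℕ := (2 ^ (7 * L + 7)) ^ L * (Qb L * Qb L)

/-- The moduli of the weights given by the parameter `ξ`. -/
def xt (L ξ r : ℕ) : ℕ := ξ / (2 ^ (7 * L + 7)) ^ r % 2 ^ (7 * L + 7) + 1

/-- The modulus given by the parameter `ξ`. -/
def xq (L ξ : ℕ) : ℕ := ξ / (2 ^ (7 * L + 7)) ^ L % Qb L + 1

/-- The argument given by the parameter `ξ`. -/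
def xx (L ξ : ℕ) : ℕ := ξ / ((2 ^ (7 * L + 7)) ^ L * Qb L) % Qb L

open Classical in
/-- The matrix of the graph `E` for the parameter `ξ`. -/
noncomputable def aM (L : ℕ) (E : ℕ → ℕ → Prop) (ξ i j : ℕ) : ℤ :=
  if E i j then (xx L ξ : ℤ) ^ wt L (xt L ξ) i j else 0

end Pool.Agent.Helper79.GS
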