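import Pool.Agent.Helper79.GS.Lib

/-!
# Project GS (MP_c2d095_lc).  Definitions 3: recursive procedures in polynomial space
-/

set_option autoImplicit false

namespace Pool.Agent.Helper79.GS

open Pool.Agent.Helper73.DC

/-- PSPACE: languages decided by a deterministic Turing machine (read-only input tape, work tapes) in polynomial space. -/
def PSPACE (α : Type) : Set (Set (List α)) := {L | ∃ k : ℕ, L ∈ DSPACE (α := α) (fun n => n ^ k)}

/-- The large number `(|w| + 2) ^ ((|w| + 2) ^ c)`. -/
def NN {α : Type} (c : ℕ) (w : List α) : ℕ := (w.length + 2) ^ ((w.length + 2) ^ c)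

/-- The empty context. -/
def zc : ℕ → ℕ := fun _ => 0

/-- Recursive procedures.  A frame `f` is finished (`fin f`, result `out f`) or calls the frame `cal f`; when the result of the
call is `u` the frame becomes `nxt f u`.  `Ev d t f v`: the result of `f` is `v`, with recursion depth at most `d` and running
time at most `t`. -/
inductive Ev (fin : ℕ → Prop) (out cal : ℕ → ℕ) (nxt : ℕ → ℕ → ℕ) : ℕ → ℕ → ℕ → ℕ → Prop
  | ret (d t f : ℕ) : fin f → 1 ≤ t → Ev fin out cal nxt d t f (out f)
  | call (d t1 t2 f u v : ℕ) : ¬ fin f → Ev fin out cal nxt d t1 (cal f) u → Ev fin out cal nxt (d + 1) t2 (nxt f u) v →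
      Ev fin out cal nxt (d + 1) (t1 + t2 + 2) f v

open Classical in
/-- The stack machine.  State: (`false`, `f`, stack): evaluate the frame `f`; (`true`, `v`, stack): the value `v` is returned to the
top of the stack. -/
noncomputable def sstep (fin : ℕ → Prop) (out cal : ℕ → ℕ) (nxt : ℕ → ℕ → ℕ) : Bool × ℕ × List ℕ → Bool × ℕ × List ℕ
  | (false, f, st) => if fin f then (true, out f, st) else (false, cal f, f :: st)
  | (true, v, []) => (true, v, [])
  | (true, v, f :: st) => (false, nxt f v, st)

end Pool.Agent.Helper79.GS
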