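import Pool.Agent.Helper79.GS.Defs2
import Pool.Agent.Helper79.GS.Defs3

/-!
# Project GS (MP_c2d095_lc).  Definitions 4: instances as words, boards as numbers

A board of size `n × n` is coded by the number with the digits (base 3) `0` (empty), `1` (Black), `2` (White) of the points
`0, .., n² - 1` (row by row).  In all functions `N` is a large number (`NN 16 w`); powers are truncated by `N` (`pw`) in order
to be E2 functions.  Players are numbers: `1` Black, `0` White.
-/

set_option autoImplicit false

namespace Pool.Agent.Helper79.GS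

open Pool.Agent.Helper19.SK Pool.Agent.Helper73.DC Finset
open scoped Classical

/-! ## Words -/

/-- The letter of the content of a point: `0` empty, `1` Black, `2` White. -/
def ltr (x : Option Bool) : Fin 5 :=
  match x with
  | none => 0
  | some true => 1
  | some false => 2

/-- The word of a board (row by row). -/
def bword {n : ℕ} (P : Pos (Fin n × Fin n)) : List (Fin 5) :=
  List.ofFn (fun i : Fin (n * n) => ltr (P (finProdFinEquiv.symm i)))

/-- The word of an instance: the player `c` to move, the size `n` in unary (letter `3`), a separator (letter `4`), the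
board `P`, the boards of `H` which have occurred, a separator, the number `m` in unary. -/
def enc (n m : ℕ) (c : Bool) (P : Pos (Fin n × Fin n)) (H : List (Pos (Fin n × Fin n))) : List (Fin 5) :=
  ltr (some c) :: (List.replicate n 3 ++ 4 :: (bword P ++ (H.map bword).flatten ++ 4 :: List.replicate m 3))

/-- Position of the first separator. -/
noncomputable def pos1 (w : List (Fin 5)) : ℕ := bmin w.length (fun i => lett w i = cd (4 : Fin 5) + 1)

/-- The size. -/
noncomputable def nW (w : List (Fin 5)) : ℕ := pos1 w - 1

/-- Position of the second separator. -/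
noncomputable def pos2 (w : List (Fin 5)) : ℕ :=
  bmin w.length (fun i => pos1 w < i ∧ lett w i = cd (4 : Fin 5) + 1)

/-- The number `m`. -/
noncomputable def mW (w : List (Fin 5)) : ℕ := w.length - pos2 w - 1

/-- The player to move (`1` is Black). -/
noncomputable def plW (w : List (Fin 5)) : ℕ := if lett w 0 = cd (1 : Fin 5) + 1 then 1 else 0

/-- Content of the point `p` of the board number `j` of the word. -/
noncomputable def cntW (w : List (Fin 5)) (j p : ℕ) : ℕ :=
  if lett w (nW w + 2 + j * (nW w * nW w) + p) = cd (1 : Fin 5) + 1 then 1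
  else if lett w (nW w + 2 + j * (nW w * nW w) + p) = cd (2 : Fin 5) + 1 then 2 else 0

/-- The board to be played. -/
noncomputable def b0W (N : ℕ) (w : List (Fin 5)) : ℕ := ∑ p ∈ range (nW w * nW w), cntW w 0 p * pw N 3 p

/-- The number `u` codes a board which has occurred. -/
def H0W (w : List (Fin 5)) (u : ℕ) : Prop :=
  ∃ j < w.length, 1 ≤ j ∧ nW w + 2 + (j + 1) * (nW w * nW w) ≤ pos2 w ∧ ∀ p < nW w * nW w, dg 3 u p = cntW w j p

/-- The budget of placements which are not reversible. -/
noncomputable def RW (w : List (Fin 5)) : ℕ := mW w + 2 * (nW w * nW w + 1) ^ 2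

/-! ## Boards as numbers -/

/-- Adjacent points. -/
def adjN (n p q : ℕ) : Prop :=
  (p / n = q / n ∧ (p % n + 1 = q % n ∨ q % n + 1 = p % n)) ∨ (p % n = q % n ∧ (p / n + 1 = q / n ∨ q / n + 1 = p / n))

/-- The digit of a colour. -/
def colN (c : ℕ) : ℕ := if c = 1 then 1 else 2

/-- Some point of the chain of `v` is adjacent to a point with content `x` (sets of points are coded in base 2). -/
def tchN (N n u v x : ℕ) : Prop :=
  ∀ S < pw N 2 (n * n), dg 2 S v = 1 →
    (∀ p < n * n, ∀ q < n * n, dg 2 S p = 1 → adjN n p q → dg 3 u p = dg 3 u q → dg 2 S q = 1) →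
    ∃ p < n * n, ∃ q < n * n, dg 2 S p = 1 ∧ adjN n p q ∧ dg 3 u q = x

/-- `u'` is `u` without the stones of the colour `c` whose chain has no adjacent empty point. -/
def clrN (N n c u u' : ℕ) : Prop :=
  ∀ v < n * n, dg 3 u' v = if dg 3 u v = colN c ∧ ¬ tchN N n u v 0 then 0 else dg 3 u v

/-- `u'` is the board after a stone of the colour `c` is placed on `e`. -/
def playN (N n c u e u' : ℕ) : Prop :=
  ∃ u1 < pw N 3 (n * n), ∃ u2 < pw N 3 (n * n),
    (∀ v < n * n, dg 3 u1 v = if v = e then colN c else dg 3 u v) ∧ clrN N n (1 - c) u1 u2 ∧ clrN N n c u2 u'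

/-- Placements which change the board. -/
def mvN (N n c u u' : ℕ) : Prop :=
  u < pw N 3 (n * n) ∧ u' < pw N 3 (n * n) ∧ u' ≠ u ∧ ∃ e < n * n, dg 3 u e = 0 ∧ playN N n c u e u'

/-- Area of the colour `c`. -/
noncomputable def areaN (N n c u : ℕ) : ℕ :=
  ∑ v ∈ range (n * n), if dg 3 u v = colN c ∨
    (dg 3 u v = 0 ∧ tchN N n u v (colN c) ∧ ¬ tchN N n u v (colN (1 - c))) then 1 else 0

/-- The number of a player. -/
def bn (c : Bool) : ℕ := if c = true then 1 else 0

/-- The arena of the boards as numbers. -/
noncomputable def arN (N n : ℕ) : Arena ℕ where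
  mv c u u' := mvN N n (bn c) u u'
  s u := (areaN N n 1 u : ℤ) - (areaN N n 0 u : ℤ)

/-- The number of a board. -/
noncomputable def codeB {n : ℕ} (P : Pos (Fin n × Fin n)) : ℕ :=
  ∑ i : Fin (n * n), (match P (finProdFinEquiv.symm i) with
    | none => 0
    | some true => 1
    | some false => 2) * 3 ^ i.val

/-- The language. -/
def LG : Set (List (Fin 5)) :=
  {w | if plW w = 1 then WN (arN (NN 16 w) (nW w)) {u | H0W w u} (RW w) true (b0W (NN 16 w) w)
    else ¬ WN (arN (NN 16 w) (nW w)) {u | H0W w u} (RW w) false (b0W (NN 16 w) w)}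

end Pool.Agent.Helper79.GS
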