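import Pool.Agent.Helper79.GS.Defs4

/-!
# Project GS (MP_c2d095_lc).  Definitions 5: the recursive procedure

The argument `z` of the procedure is a number with 13 digits (fields) in the base `PhN`: 0 `T` (kind of the call), 1 `r`
(budget), 2 `c` (player), 3 `a`, 4 `b` (boards which have occurred), 5 `u` (board), 6 `k` (recursion over the levels), 7 `m`
(size of a matching), 8 `fl` (delete the vertex `u`), 9 `d` (power of the transfer matrix), 10 `s`, 11 `t` (row and column),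
12 `x` (parameter of the weights).
Kinds: 1: `WN`; 2: `EN`; 3: `Xk`; 4: `Mat` of the graph; 5: entry of a power of the transfer matrix; 6: edge of the graph;
7: the question.
-/

set_option autoImplicit false

namespace Pool.Agent.Helper79.GS

open Pool.Agent.Helper73.DC Finset
open scoped Classical

/-- Truth values as numbers. -/
noncomputable def b01 (p : Prop) : ℕ := if p then 1 else 0

/-- Boolean of a player number. -/
noncomputable def cB (c : ℕ) : Bool := decide (c = 1)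

/-- The exponent of the size of the matrices. -/
def LL (n : ℕ) : ℕ := 2 * (n * n) + 1

/-- Base of the fields. -/
noncomputable def PhN (N : ℕ) (w : List (Fin 5)) : ℕ := pw N 2 (32 * (LL (nW w) + 1) ^ 2 + w.length)

/-- Number of boards. -/
noncomputable def NbN (N : ℕ) (w : List (Fin 5)) : ℕ := pw N 3 (nW w * nW w)

/-- Size of the matrix. -/
noncomputable def nmN (N : ℕ) (w : List (Fin 5)) : ℕ := pw N 2 (LL (nW w))

/-- Number of states of the transfer matrix. -/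
noncomputable def SdN (N : ℕ) (w : List (Fin 5)) : ℕ := (nmN N w + 1) * (nmN N w + 2)

/-- The argument with given fields. -/
noncomputable def zz (N : ℕ) (w : List (Fin 5)) (T r c a b u k m fl d s t x : ℕ) : ℕ :=
  Nat.ofDigits (PhN N w) [T, r, c, a, b, u, k, m, fl, d, s, t, x]

/-- The field number `i`. -/
noncomputable def fi (N : ℕ) (w : List (Fin 5)) (z i : ℕ) : ℕ := dg (PhN N w) z i

/-! ## Board functions -/

/-- The player `c` is ahead. -/
def ahN (N n c u : ℕ) : Prop := if c = 1 then areaN N n 0 u < areaN N n 1 u else ¬ areaN N n 0 u < areaN N n 1 u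

/-- Number of levels to the threshold, plus one. -/
noncomputable def idN (N n c u : ℕ) : ℕ :=
  if c = 1 then (areaN N n 0 u - areaN N n 1 u) / 4 + 1 else (areaN N n 1 u - areaN N n 0 u - 1) / 4 + 1

/-- Reversible placements. -/
def rvN (N n c u x : ℕ) : Prop := mvN N n c u x ∧ mvN N n (1 - c) x u

/-- Boards which have occurred. -/
def VN (w : List (Fin 5)) (a b x : ℕ) : Prop := H0W w x ∨ x = a ∨ x = b

/-! ## Transfer matrix -/

/-- Kind of the entry: 0: zero; 1: one; 2: minus an entry; 3: plus an entry. -/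
def trK (n s t : ℕ) : ℕ :=
  if s % (n + 2) = n ∧ s / (n + 2) < n then
    if t / (n + 2) = s / (n + 2) + 1 ∧ t % (n + 2) = n then 1
    else if t / (n + 2) = s / (n + 2) ∧ s / (n + 2) < t % (n + 2) ∧ t % (n + 2) < n then 2
    else if t / (n + 2) = s / (n + 2) ∧ t % (n + 2) = n + 1 then 2
    else 0
  else if s % (n + 2) < n ∧ s / (n + 2) < s % (n + 2) then
    if t / (n + 2) = s / (n + 2) ∧ s / (n + 2) < t % (n + 2) ∧ t % (n + 2) < n then 3
    else if t / (n + 2) = s / (n + 2) ∧ t % (n + 2) = n + 1 then 3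
    else 0
  else if s % (n + 2) = n + 1 ∧ s / (n + 2) < n then
    if t / (n + 2) = s / (n + 2) + 1 ∧ t % (n + 2) = n then 1 else 0
  else 0

/-- Row of the entry. -/
def trI (n s : ℕ) : ℕ := if s % (n + 2) = n then s / (n + 2) else s % (n + 2)

/-- Column of the entry. -/
def trJ (n s t : ℕ) : ℕ := if t % (n + 2) = n + 1 then s / (n + 2) else t % (n + 2)

/-- The edges of `padE` outside the square `[0, Nb)²`. -/
def padS (Nb m i j : ℕ) : Prop :=
  (i < Nb ∧ Nb ≤ j ∧ j < 2 * Nb - m) ∨ (Nb ≤ i ∧ i < 2 * Nb - m ∧ j < Nb) ∨ (2 * Nb - m ≤ i ∧ j = i)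

/-- Weights. -/
noncomputable def wtN (N L x i j : ℕ) : ℕ :=
  ∑ r ∈ range L, ((pw N 2 (L + 3)) ^ (i * pw N 2 L + j) % (dg (pw N 2 (7 * L + 7)) x r + 1)) *
    pw N 2 ((8 * L + 8) * (L - 1 - r))

/-- Bound for moduli and arguments. -/
noncomputable def QbN (N L : ℕ) : ℕ := pw N 2 (8 * L ^ 2 + 9 * L + 2)

/-- Number of the parameters. -/
noncomputable def XbN (N L : ℕ) : ℕ := pw N 2 ((7 * L + 7) * L + 2 * (8 * L ^ 2 + 9 * L + 2))

/-- Modulus minus one. -/
noncomputable def xqN (N L x : ℕ) : ℕ := x / pw N 2 ((7 * L + 7) * L) % QbN N L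

/-- Argument. -/
noncomputable def xxN (N L x : ℕ) : ℕ := x / pw N 2 ((7 * L + 7) * L + (8 * L ^ 2 + 9 * L + 2)) % QbN N L

/-- The matrix entry modulo `q` if there is an edge. -/
noncomputable def evN (N L x i j : ℕ) : ℕ := (xxN N L x) ^ (wtN N L x i j) % (xqN N L x + 1)

/-- The value of an entry of the transfer matrix modulo `q`; `y ≠ 0`: `(i, j)` is an edge of the graph. -/
noncomputable def entN (N : ℕ) (w : List (Fin 5)) (m s t x y : ℕ) : ℕ :=
  if trK (nmN N w) s t = 1 then 1 % (xqN N (LL (nW w)) x + 1)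
  else if trK (nmN N w) s t = 0 then 0
  else if (trI (nmN N w) s < NbN N w ∧ trJ (nmN N w) s t < NbN N w ∧ y ≠ 0) ∨
      padS (NbN N w) m (trI (nmN N w) s) (trJ (nmN N w) s t) then
    if trK (nmN N w) s t = 2 then
      (xqN N (LL (nW w)) x + 1 - evN N (LL (nW w)) x (trI (nmN N w) s) (trJ (nmN N w) s t)) %
        (xqN N (LL (nW w)) x + 1)
    else evN N (LL (nW w)) x (trI (nmN N w) s) (trJ (nmN N w) s t)
  else 0

/-! ## The procedure: calls of the kinds 1 - 7 -/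

/-- Condition for the third kind of moves of the player who is ahead. -/
def c1 (N : ℕ) (w : List (Fin 5)) (c u x : ℕ) : Prop := rvN N (nW w) c u x ∧ ¬ H0W w x ∧ x ≠ u

/-- Condition for placements which are not reversible. -/
def c2 (N : ℕ) (w : List (Fin 5)) (c u x : ℕ) : Prop :=
  mvN N (nW w) c u x ∧ ¬ mvN N (nW w) (1 - c) x u ∧ ¬ H0W w x

noncomputable def del1 (N : ℕ) (w : List (Fin 5)) (r c u j : ℕ) : ℕ :=
  if ahN N (nW w) c u then
    if j = 0 then zz N w 2 r c 0 0 u 0 0 0 0 0 0 0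
    else if j = 1 then zz N w 3 r (1 - c) u u u (idN N (nW w) (1 - c) u) 0 0 0 0 0 0
    else if c1 N w c u (j - 2) then
      zz N w 3 r (1 - c) u (j - 2) (j - 2) (idN N (nW w) (1 - c) (j - 2)) 0 0 0 0 0 0
    else 0
  else zz N w 3 r c u u u (idN N (nW w) c u) 0 0 0 0 0 0

noncomputable def stp1 (N : ℕ) (w : List (Fin 5)) (c u j a y : ℕ) : ℕ :=
  if ahN N (nW w) c u then
    if j = 0 then b01 (a = 1 ∨ y ≠ 0)
    else if j = 1 then b01 (a = 1 ∨ y = 0)
    else b01 (a = 1 ∨ (c1 N w c u (j - 2) ∧ y = 0))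
  else b01 (y ≠ 0)

noncomputable def del2' (N : ℕ) (w : List (Fin 5)) (r c u j : ℕ) : ℕ :=
  if c2 N w c u j then zz N w 1 (r - 1) (1 - c) 0 0 j 0 0 0 0 0 0 0 else 0

noncomputable def stp2 (N : ℕ) (w : List (Fin 5)) (c u j a y : ℕ) : ℕ := b01 (a = 1 ∨ (c2 N w c u j ∧ y = 0))

noncomputable def del3 (N : ℕ) (w : List (Fin 5)) (r c a b u k j : ℕ) : ℕ :=
  if j = 0 then zz N w 2 r c 0 0 u 0 0 0 0 0 0 0
  else zz N w 4 r c a b u (k - 1) ((j - 1) / 2) ((j - 1) % 2) 0 0 0 0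

noncomputable def stp3 (j a y : ℕ) : ℕ :=
  if j = 0 then b01 (y ≠ 0)
  else if a = 1 then 1
  else if (j - 1) % 2 = 0 then (if y ≠ 0 then 2 else 0)
  else b01 (a = 2 ∧ y = 0)

noncomputable def del4 (N : ℕ) (w : List (Fin 5)) (r c a b u k m fl j : ℕ) : ℕ :=
  zz N w 5 r c a b u k m fl (LL (nW w) + 1) (nmN N w) (nmN N w * (nmN N w + 2) + nmN N w) j

noncomputable def stp4 (a y : ℕ) : ℕ := b01 (a = 1 ∨ y ≠ 0)

noncomputable def del5 (N : ℕ) (w : List (Fin 5)) (r c a b u k m fl d s t x j : ℕ) : ℕ :=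
  if d = 0 then
    if 2 ≤ trK (nmN N w) s t ∧ trI (nmN N w) s < NbN N w ∧ trJ (nmN N w) s t < NbN N w then
      zz N w 6 r c a b u k 0 fl 0 (trI (nmN N w) s) (trJ (nmN N w) s t) 0
    else 0
  else if j % 2 = 0 then zz N w 5 r c a b u k m fl (d - 1) s (j / 2) x
  else zz N w 5 r c a b u k m fl (d - 1) (j / 2) t x

noncomputable def stp5 (N : ℕ) (w : List (Fin 5)) (m d s t x j a y : ℕ) : ℕ :=
  if d = 0 then entN N w m s t x y
  else if j % 2 = 0 then a % PhN N w + PhN N w * (y % PhN N w)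
  else (a % PhN N w + a / PhN N w * y) % (xqN N (LL (nW w)) x + 1)

noncomputable def del6 (N : ℕ) (w : List (Fin 5)) (r c a b k s t j : ℕ) : ℕ :=
  if j = 0 then zz N w 2 r c 0 0 s 0 0 0 0 0 0 0
  else if j = 1 then zz N w 2 r (1 - c) 0 0 t 0 0 0 0 0 0 0
  else zz N w 3 r c a b t k 0 0 0 0 0 0

noncomputable def stp6 (N : ℕ) (w : List (Fin 5)) (c u s t j a y : ℕ) : ℕ :=
  if j = 0 then b01 (a = 1 ∧ (s = u ∨ y = 0))
  else if j = 1 then b01 (a = 1 ∧ y = 0)
  else b01 (a = 1 ∧ (ahN N (nW w) c t ∨ y ≠ 0))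

noncomputable def ini6 (N : ℕ) (w : List (Fin 5)) (c a b u fl s t : ℕ) : ℕ :=
  b01 ((fl = 1 → s ≠ u) ∧ areaN N (nW w) 1 s + areaN N (nW w) 0 u = areaN N (nW w) 1 u + areaN N (nW w) 0 s ∧
    rvN N (nW w) c s t ∧ ¬ VN w a b t ∧ (s = u ∨ ¬ VN w a b s))

/-! ## The procedure -/

noncomputable def IniN (N : ℕ) (w : List (Fin 5)) (z : ℕ) : ℕ :=
  if fi N w z 0 = 6 then
    ini6 N w (fi N w z 2) (fi N w z 3) (fi N w z 4) (fi N w z 5) (fi N w z 8) (fi N w z 10) (fi N w z 11)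
  else 0

noncomputable def LenN (N : ℕ) (w : List (Fin 5)) (z : ℕ) : ℕ :=
  if fi N w z 0 = 1 then (if ahN N (nW w) (fi N w z 2) (fi N w z 5) then NbN N w + 2 else 1)
  else if fi N w z 0 = 2 then (if fi N w z 1 = 0 then 0 else NbN N w)
  else if fi N w z 0 = 3 then (if fi N w z 6 = 0 then 0 else 2 * (NbN N w + 1) + 1)
  else if fi N w z 0 = 4 then XbN N (LL (nW w))
  else if fi N w z 0 = 5 then (if fi N w z 9 = 0 then 1 else 2 * SdN N w)
  else if fi N w z 0 = 6 then 3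
  else if fi N w z 0 = 7 then 1
  else 0

noncomputable def DelN (N : ℕ) (w : List (Fin 5)) (z j : ℕ) : ℕ :=
  if fi N w z 0 = 1 then del1 N w (fi N w z 1) (fi N w z 2) (fi N w z 5) j
  else if fi N w z 0 = 2 then del2' N w (fi N w z 1) (fi N w z 2) (fi N w z 5) j
  else if fi N w z 0 = 3 then
    del3 N w (fi N w z 1) (fi N w z 2) (fi N w z 3) (fi N w z 4) (fi N w z 5) (fi N w z 6) j
  else if fi N w z 0 = 4 then
    del4 N w (fi N w z 1) (fi N w z 2) (fi N w z 3) (fi N w z 4) (fi N w z 5) (fi N w z 6) (fi N w z 7) (fi N w z 8) j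
  else if fi N w z 0 = 5 then
    del5 N w (fi N w z 1) (fi N w z 2) (fi N w z 3) (fi N w z 4) (fi N w z 5) (fi N w z 6) (fi N w z 7) (fi N w z 8)
      (fi N w z 9) (fi N w z 10) (fi N w z 11) (fi N w z 12) j
  else if fi N w z 0 = 6 then
    del6 N w (fi N w z 1) (fi N w z 2) (fi N w z 3) (fi N w z 4) (fi N w z 6) (fi N w z 10) (fi N w z 11) j
  else if fi N w z 0 = 7 then zz N w 1 (fi N w z 1) (fi N w z 2) 0 0 (fi N w z 5) 0 0 0 0 0 0 0
  else 0

noncomputable def StpN (N : ℕ) (w : List (Fin 5)) (z j a y : ℕ) : ℕ :=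
  if fi N w z 0 = 1 then stp1 N w (fi N w z 2) (fi N w z 5) j a y
  else if fi N w z 0 = 2 then stp2 N w (fi N w z 2) (fi N w z 5) j a y
  else if fi N w z 0 = 3 then stp3 j a y
  else if fi N w z 0 = 4 then stp4 a y
  else if fi N w z 0 = 5 then
    stp5 N w (fi N w z 7) (fi N w z 9) (fi N w z 10) (fi N w z 11) (fi N w z 12) j a y
  else if fi N w z 0 = 6 then stp6 N w (fi N w z 2) (fi N w z 5) (fi N w z 10) (fi N w z 11) j a y
  else if fi N w z 0 = 7 then (if fi N w z 2 = 1 then b01 (y ≠ 0) else b01 (y = 0))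
  else 0

noncomputable def OutN (N : ℕ) (w : List (Fin 5)) (z a : ℕ) : ℕ :=
  if fi N w z 0 = 3 then b01 (a = 1)
  else if fi N w z 0 = 5 then a % PhN N w
  else b01 (a = 1)

/-- The first call. -/
noncomputable def Z0N (N : ℕ) (w : List (Fin 5)) : ℕ := zz N w 7 (RW w) (plW w) 0 0 (b0W N w) 0 0 0 0 0 0 0

/-! ## Meaning -/

/-- The arena of a word. -/
noncomputable def AW (w : List (Fin 5)) : Arena ℕ := arN (NN 16 w) (nW w)

/-- The boards which have occurred. -/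
def HW (w : List (Fin 5)) : Set ℕ := {u | H0W w u}

/-- The same with two more boards. -/
def VW (w : List (Fin 5)) (a b : ℕ) : Set ℕ := {x | VN w a b x}

/-- The graph. -/
def GW (w : List (Fin 5)) (r c a b u k fl : ℕ) : ℕ → ℕ → Prop :=
  if fl = 1 then
    del (Gr (AW w) (EN (AW w) (HW w) r) (VW w a b) (cB c) (Xk (AW w) (EN (AW w) (HW w) r) (VW w a b) (cB c) k) u) u
  else Gr (AW w) (EN (AW w) (HW w) r) (VW w a b) (cB c) (Xk (AW w) (EN (AW w) (HW w) r) (VW w a b) (cB c) k) u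

/-- The value of a call with given fields. -/
noncomputable def ValF (w : List (Fin 5)) (T r c a b u k m fl d s t x : ℕ) : ℕ :=
  if T = 1 then b01 (WN (AW w) (HW w) r (cB c) u)
  else if T = 2 then b01 (EN (AW w) (HW w) r (cB c) u)
  else if T = 3 then b01 (Xk (AW w) (EN (AW w) (HW w) r) (VW w a b) (cB c) k u)
  else if T = 4 then b01 (Mat (GW w r c a b u k fl) m)
  else if T = 5 then
    (trP (2 ^ LL (nW w)) (aM (LL (nW w)) (padE (GW w r c a b u k fl) (3 ^ (nW w * nW w)) m) x) d s t %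
      (xq (LL (nW w)) x : ℤ)).toNat
  else if T = 6 then b01 (GW w r c a b u k fl s t)
  else if T = 7 then b01 (if c = 1 then WN (AW w) (HW w) r true u else ¬ WN (AW w) (HW w) r false u)
  else 0

/-- The value of a call. -/
noncomputable def ValW (w : List (Fin 5)) (z : ℕ) : ℕ :=
  ValF w (fi (NN 16 w) w z 0) (fi (NN 16 w) w z 1) (fi (NN 16 w) w z 2) (fi (NN 16 w) w z 3) (fi (NN 16 w) w z 4)
    (fi (NN 16 w) w z 5) (fi (NN 16 w) w z 6) (fi (NN 16 w) w z 7) (fi (NN 16 w) w z 8) (fi (NN 16 w) w z 9)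
    (fi (NN 16 w) w z 10) (fi (NN 16 w) w z 11) (fi (NN 16 w) w z 12)

/-- Conditions for the fields. -/
def OkF (w : List (Fin 5)) (T r c a b u k m fl d s t x : ℕ) : Prop :=
  1 ≤ T ∧ T ≤ 7 ∧ r ≤ RW w ∧ c ≤ 1 ∧ a < 3 ^ (nW w * nW w) ∧ b < 3 ^ (nW w * nW w) ∧ u < 3 ^ (nW w * nW w) ∧
  k ≤ nW w * nW w + 1 ∧ (T ≠ 3 → k ≤ nW w * nW w) ∧ m ≤ 3 ^ (nW w * nW w) ∧ fl ≤ 1 ∧ d ≤ LL (nW w) + 1 ∧
  s < (2 ^ LL (nW w) + 1) * (2 ^ LL (nW w) + 2) ∧ t < (2 ^ LL (nW w) + 1) * (2 ^ LL (nW w) + 2) ∧ x < Xb (LL (nW w)) ∧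
  (T = 6 → s < 3 ^ (nW w * nW w) ∧ t < 3 ^ (nW w * nW w))

/-- Valid calls. -/
def OkW (w : List (Fin 5)) (z : ℕ) : Prop :=
  z = 0 ∨ ∃ T r c a b u k m fl d s t x, OkF w T r c a b u k m fl d s t x ∧
    z = zz (NN 16 w) w T r c a b u k m fl d s t x

/-- The rank of a call with given fields. -/
noncomputable def rkF (w : List (Fin 5)) (T r k d : ℕ) : ℕ :=
  if T = 0 then 0
  else r * ((nW w * nW w + 2) * (LL (nW w) + 6) + 2) +
    (if T = 1 then 2 + (nW w * nW w + 2) * (LL (nW w) + 6)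
    else if T = 2 then 1
    else if T = 3 then 2 + k * (LL (nW w) + 6)
    else if T = 4 then 2 + k * (LL (nW w) + 6) + LL (nW w) + 4
    else if T = 5 then 4 + k * (LL (nW w) + 6) + d
    else if T = 6 then 3 + k * (LL (nW w) + 6)
    else 3 + (nW w * nW w + 2) * (LL (nW w) + 6))

/-- The rank of a call. -/
noncomputable def rkW (w : List (Fin 5)) (z : ℕ) : ℕ :=
  rkF w (fi (NN 16 w) w z 0) (fi (NN 16 w) w z 1) (fi (NN 16 w) w z 6) (fi (NN 16 w) w z 9)

/-- The procedure is correct for the calls with the fields in question (the hypothesis of `StREC`). -/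
def TagOK (w : List (Fin 5)) (z : ℕ) : Prop :=
  IniN (NN 16 w) w z < NN 16 w ∧ LenN (NN 16 w) w z < NN 16 w ∧
  (∀ j < LenN (NN 16 w) w z, OkW w (DelN (NN 16 w) w z j) ∧ rkW w (DelN (NN 16 w) w z j) < rkW w z ∧
    ∀ a < NN 16 w, ∀ y < NN 16 w, StpN (NN 16 w) w z j a y < NN 16 w) ∧
  (∀ a < NN 16 w, OutN (NN 16 w) w z a < NN 16 w) ∧
  ValW w z = OutN (NN 16 w) w z (Nat.rec (IniN (NN 16 w) w z)
    (fun j a => StpN (NN 16 w) w z j a (ValW w (DelN (NN 16 w) w z j))) (LenN (NN 16 w) w z) : ℕ)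

end Pool.Agent.Helper79.GS
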